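import Pool.Agent.H252.EL.Iface

/-!
# Traces of the limit algebra and masses of the components (`S_MASS` of project EL of helper252)
-/

set_option autoImplicit false

noncomputable section

namespace Pool.Agent.H400.ELMASS

open Filter Topology
open scoped Matrix.Norms.L2Operator
open Pool.Agent.H252.EL
open Pool.Agent.H188R3 (IsLim)

/-- the indicator function of the component `b` -/
def ind (D : Sys) (i : ℕ) (b : Bool) : C(D.Z i, ℂ) :=
  ⟨fun z => if z.1 = b then 1 else 0, by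
    refine continuous_sigma fun b' => ?_
    change Continuous fun _ : Cb (D.d i b') => (if b' = b then (1 : ℂ) else 0)
    exact continuous_const⟩

lemma ind_apply (D : Sys) (i : ℕ) (b : Bool) (z : D.Z i) :
    ind D i b z = if z.1 = b then 1 else 0 := rfl

lemma one_eq (D : Sys) (i : ℕ) (b : Bool) : D.one i b = sc (D.n i) (ind D i b) := by
  ext1 z
  change (if z.1 = b then (1 : Matrix (Fin (D.n i)) (Fin (D.n i)) ℂ) else 0) =
    (if z.1 = b then (1 : ℂ) else 0) • (1 : Matrix (Fin (D.n i)) (Fin (D.n i)) ℂ)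
  split_ifs <;> simp

lemma n_pos (D : Sys) (hD : D.Good) (i : ℕ) : 0 < D.n i := by
  induction i with
  | zero => rw [D.n_zero]; exact Nat.one_pos
  | succ i ih =>
    rw [D.n_succ]
    have := hD.lt i
    exact Nat.mul_pos ih (by omega)

lemma ctr_φ (D : Sys) (hD : D.Good) (i : ℕ) (f : C(D.Z i, ℂ)) :
    ctr (D.φ i (sc (D.n i) f)) = D.θ i f := by
  have hn := n_pos D hD i
  have hS : 0 < D.S i := by have := hD.lt i; omega
  ext z
  change ntr (dgv (fun s => D.l i s z) (sc (D.n i) f)) =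
    ((D.S i : ℂ)⁻¹ • ∑ s, f.comp (D.l i s)) z
  rw [ContinuousMap.smul_apply, ContinuousMap.sum_apply]
  unfold ntr dgv
  have h1 : ((Matrix.blockDiagonal fun t => (sc (D.n i) f) (D.l i t z)).submatrix
      finProdFinEquiv.symm finProdFinEquiv.symm).trace =
      (Matrix.blockDiagonal fun t => (sc (D.n i) f) (D.l i t z)).trace := by
    unfold Matrix.trace
    exact Equiv.sum_comp finProdFinEquiv.symm
      (fun x => (Matrix.blockDiagonal fun t => (sc (D.n i) f) (D.l i t z)).diag x)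
  rw [h1, Matrix.trace_blockDiagonal]
  have h2 : ∀ s, ((sc (D.n i) f) (D.l i s z)).trace = f (D.l i s z) * (D.n i : ℂ) := by
    intro s
    change (f (D.l i s z) • (1 : Matrix (Fin (D.n i)) (Fin (D.n i)) ℂ)).trace = _
    rw [Matrix.trace_smul, Matrix.trace_one, Fintype.card_fin, smul_eq_mul]
  simp only [h2, Fintype.card_fin, ContinuousMap.comp_apply, smul_eq_mul]
  rw [← Finset.sum_mul]
  have hn' : (D.n i : ℂ) ≠ 0 := by exact_mod_cast hn.ne'
  have hS' : (D.S i : ℂ) ≠ 0 := by exact_mod_cast hS.ne'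
  push_cast
  field_simp

lemma l_fst (D : Sys) (hD : D.Good) (i : ℕ) (s : Fin (D.S i)) (z : D.Z (i + 1)) :
    (D.l i s z).1 = if (s : ℕ) < D.S i - D.c i then z.1 else !z.1 := by
  have hlt := hD.lt i
  change (lam (D.q i) (D.S i) (D.c i) s z).1 = _
  unfold lam
  split_ifs with h1 h2 h3
  · rfl
  · omega
  · rfl
  · rfl

lemma count_lt (S c : ℕ) (hc : c ≤ S) (x y : ℂ) :
    ∑ s : Fin S, (if (s : ℕ) < S - c then x else y) = ((S : ℂ) - c) * x + c * y := by
  rw [Fin.sum_univ_eq_sum_range (fun s => if s < S - c then x else y) S]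
  obtain ⟨k, hk⟩ : ∃ k, S = k + c := ⟨S - c, by omega⟩
  have hk2 : S - c = k := by omega
  rw [hk2, hk, Finset.sum_range_add]
  have h1 : ∀ s ∈ Finset.range k, (if s < k then x else y) = x := fun s hs =>
    if_pos (Finset.mem_range.mp hs)
  have h2 : ∀ s ∈ Finset.range c, (if k + s < k then x else y) = y := fun s _ =>
    if_neg (by omega)
  rw [Finset.sum_congr rfl h1, Finset.sum_congr rfl h2]
  simp

lemma θ_ind (D : Sys) (hD : D.Good) (i : ℕ) (b : Bool) :
    D.θ i (ind D i b) = (1 - (D.c i : ℂ) / D.S i) • ind D (i + 1) b +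
      ((D.c i : ℂ) / D.S i) • ind D (i + 1) (!b) := by
  have hlt := hD.lt i
  have hS : (D.S i : ℂ) ≠ 0 := by
    have : D.S i ≠ 0 := by omega
    exact_mod_cast this
  ext z
  change ((D.S i : ℂ)⁻¹ • ∑ s, (ind D i b).comp (D.l i s)) z = _
  rw [ContinuousMap.smul_apply, ContinuousMap.sum_apply, ContinuousMap.add_apply,
    ContinuousMap.smul_apply, ContinuousMap.smul_apply]
  simp only [ContinuousMap.comp_apply, ind_apply, l_fst D hD, smul_eq_mul]
  have h1 : ∀ s : Fin (D.S i), (if (if (s : ℕ) < D.S i - D.c i then z.1 else !z.1) = b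
      then (1 : ℂ) else 0) = if (s : ℕ) < D.S i - D.c i then (if z.1 = b then 1 else 0)
        else (if (!z.1) = b then 1 else 0) := by
    intro s
    split_ifs <;> rfl
  simp only [h1]
  rw [count_lt _ _ (by omega)]
  have h2 : (if (!z.1) = b then (1 : ℂ) else 0) = if z.1 = !b then 1 else 0 := by
    cases z.1 <;> cases b <;> simp
  rw [h2]
  field_simp

lemma sc_add {Z : Type} [TopologicalSpace Z] [CompactSpace Z] (n : ℕ) (f g : C(Z, ℂ)) :
    sc n (f + g) = sc n f + sc n g := by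
  ext1 z
  exact add_smul (f z) (g z) (1 : Matrix (Fin n) (Fin n) ℂ)

lemma sc_smul {Z : Type} [TopologicalSpace Z] [CompactSpace Z] (n : ℕ) (c : ℂ) (f : C(Z, ℂ)) :
    sc n (c • f) = c • sc n f := by
  ext1 z
  exact mul_smul c (f z) (1 : Matrix (Fin n) (Fin n) ℂ)

lemma sc_one_sum (D : Sys) (i : ℕ) : D.one i true + D.one i false = 1 := by
  ext1 z
  change (if z.1 = true then (1 : Matrix (Fin (D.n i)) (Fin (D.n i)) ℂ) else 0) +
    (if z.1 = false then (1 : Matrix (Fin (D.n i)) (Fin (D.n i)) ℂ) else 0) = 1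
  cases z.1 <;> simp

lemma one_star_mul (D : Sys) (i : ℕ) (b : Bool) : star (D.one i b) * D.one i b = D.one i b := by
  ext1 z
  change star (if z.1 = b then (1 : Matrix (Fin (D.n i)) (Fin (D.n i)) ℂ) else 0) *
    (if z.1 = b then (1 : Matrix (Fin (D.n i)) (Fin (D.n i)) ℂ) else 0) =
    (if z.1 = b then (1 : Matrix (Fin (D.n i)) (Fin (D.n i)) ℂ) else 0)
  split_ifs <;> simp

/-- the recursion for the masses -/
lemma rec_real (W : ℕ → ℝ) (h : ∀ i, W i - 1 / 2 = (1 - 1 / ((i : ℝ) + 2) ^ 2) * (W (i + 1) - 1 / 2))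
    (i : ℕ) : W i = 1 / 2 + (2 * W 0 - 1) * (((i : ℝ) + 1) / (i + 2)) := by
  induction i with
  | zero => norm_num; ring
  | succ i ih =>
    have h1 := h i
    rw [ih] at h1
    have h2 : (1 : ℝ) - 1 / ((i : ℝ) + 2) ^ 2 = ((i : ℝ) + 1) * (i + 3) / (i + 2) ^ 2 := by
      field_simp
      ring
    rw [h2] at h1
    push_cast
    have h3 : ((i : ℝ) + 1) * (i + 3) / (i + 2) ^ 2 * ((i + 1 + 1) / (i + 1 + 2)) =
        ((i : ℝ) + 1) / (i + 2) := by
      field_simp
      ring
    have h4 : 0 < ((i : ℝ) + 1) * (i + 3) / (i + 2) ^ 2 := by positivity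
    have h5 : ((i : ℝ) + 1) * (i + 3) / (i + 2) ^ 2 * (W (i + 1) - 1 / 2) =
        ((i : ℝ) + 1) * (i + 3) / (i + 2) ^ 2 *
          ((2 * W 0 - 1) * ((i + 1 + 1) / (i + 1 + 2))) := by
      rw [← h1]
      linear_combination (-(2 * W 0 - 1)) * h3
    have h6 := mul_left_cancel₀ h4.ne' h5
    linarith

lemma bound_real (W : ℕ → ℝ) (h0 : ∀ i, 0 ≤ W i) (h1 : ∀ i, W i ≤ 1)
    (h : ∀ i : ℕ, W i = 1 / 2 + (2 * W 0 - 1) * (((i : ℝ) + 1) / (i + 2))) :
    1 / 4 ≤ W 0 ∧ W 0 ≤ 3 / 4 := by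
  have hlim : Tendsto (fun i : ℕ => 1 / 2 + (2 * W 0 - 1) * (((i : ℝ) + 1) / (i + 2))) atTop
      (𝓝 (1 / 2 + (2 * W 0 - 1) * 1)) := by
    apply Tendsto.const_add
    apply Tendsto.const_mul
    have h2 : Tendsto (fun i : ℕ => 1 - 1 / ((i : ℝ) + 2)) atTop (𝓝 (1 - 0)) := by
      apply Tendsto.const_sub
      have h3 := (tendsto_one_div_add_atTop_nhds_zero_nat (𝕜 := ℝ)).comp (tendsto_add_atTop_nat 1)
      refine h3.congr fun i => ?_
      simp only [Function.comp]
      push_cast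
      ring
    rw [sub_zero] at h2
    refine h2.congr fun i => ?_
    field_simp
    ring
  have h4 : 0 ≤ 1 / 2 + (2 * W 0 - 1) * 1 :=
    ge_of_tendsto' hlim fun i => by rw [← h i]; exact h0 i
  have h5 : 1 / 2 + (2 * W 0 - 1) * 1 ≤ 1 :=
    le_of_tendsto' hlim fun i => by rw [← h i]; exact h1 i
  constructor <;> linarith

theorem s_MASS (hT : S_TRB) : S_MASS := by
  intro D hF L _ j hL τ hτ
  have hD : D.Good := hF.toGood
  obtain ⟨hτ1, hτpos, hτtr⟩ := hτ
  -- the traces at the finite stages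
  have key1 : ∀ i a, τ (j i a) = τ (j i (sc _ (ctr a))) := by
    intro i a
    exact hT (D.Z i) (D.n i)
      { toFun := fun a => τ (j i a)
        map_add' := by intro x y; rw [map_add, map_add]
        map_smul' := by intro c x; rw [map_smul, map_smul]; rfl }
      (fun x y => by
        change τ (j i (x * y)) = τ (j i (y * x))
        rw [map_mul (j i), map_mul (j i), hτtr]) a
  have key2 : ∀ i (f : C(D.Z i, ℂ)), τ (j (i + 1) (sc _ (D.θ i f))) = τ (j i (sc _ f)) := by
    intro i f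
    rw [← ctr_φ D hD i f, ← key1, hL.comp]
  -- the masses
  obtain ⟨w, hw⟩ : ∃ w : ℕ → Bool → ℂ, w = fun i b => τ (j i (D.one i b)) := ⟨_, rfl⟩
  have hsum : ∀ i, w i true + w i false = 1 := by
    intro i
    rw [hw]
    change τ (j i (D.one i true)) + τ (j i (D.one i false)) = 1
    rw [← map_add, ← map_add, sc_one_sum, map_one, hτ1]
  have hpos : ∀ i b, 0 ≤ (w i b).re ∧ (w i b).im = 0 := by
    intro i b
    have h := hτpos (j i (D.one i b))
    rw [← map_star, ← map_mul, one_star_mul] at h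
    rw [hw]
    exact h
  have hsum' : ∀ i b, w i b + w i (!b) = 1 := by
    intro i b
    cases b
    · rw [add_comm]; exact hsum i
    · exact hsum i
  have hrec : ∀ i b, w i b = (1 - (D.c i : ℂ) / D.S i) * w (i + 1) b +
      ((D.c i : ℂ) / D.S i) * w (i + 1) (!b) := by
    intro i b
    rw [hw]
    change τ (j i (D.one i b)) = (1 - (D.c i : ℂ) / D.S i) * τ (j (i + 1) (D.one (i + 1) b)) +
      ((D.c i : ℂ) / D.S i) * τ (j (i + 1) (D.one (i + 1) (!b)))
    rw [one_eq D i b, ← key2, θ_ind D hD, sc_add, sc_smul, sc_smul, map_add, map_add, map_smul,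
      map_smul, map_smul, map_smul, one_eq, one_eq]
    rfl
  have hcS : ∀ i, (D.c i : ℝ) / D.S i = 1 / (2 * ((i : ℝ) + 2) ^ 2) := by
    intro i
    have hc : (D.c i : ℝ) ≠ 0 := by
      have := hD.c_pos i
      have h2 : D.c i ≠ 0 := by omega
      exact_mod_cast h2
    rw [hF.S_eq i]
    push_cast
    field_simp
  have hrecR : ∀ b i, (w i b).re - 1 / 2 = (1 - 1 / ((i : ℝ) + 2) ^ 2) *
      ((w (i + 1) b).re - 1 / 2) := by
    intro b i
    have h1 := hrec i b
    have h2 := hsum' (i + 1) b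
    have h3 : w (i + 1) (!b) = 1 - w (i + 1) b := by rw [← h2]; ring
    rw [h3] at h1
    have h4 : ((D.c i : ℂ) / D.S i) = (((D.c i : ℝ) / D.S i : ℝ) : ℂ) := by push_cast; rfl
    rw [h4, hcS i] at h1
    have h5 := congrArg Complex.re h1
    rw [Complex.add_re] at h5
    have h6 : (1 - ((1 / (2 * ((i : ℝ) + 2) ^ 2) : ℝ) : ℂ)) =
        ((1 - 1 / (2 * ((i : ℝ) + 2) ^ 2) : ℝ) : ℂ) := by
      rw [Complex.ofReal_sub, Complex.ofReal_one]
    rw [h6, Complex.re_ofReal_mul, Complex.re_ofReal_mul, Complex.sub_re, Complex.one_re] at h5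
    rw [h5]
    field_simp
    ring
  have hform : ∀ b i, (w i b).re = 1 / 2 + (2 * (w 0 b).re - 1) * (((i : ℝ) + 1) / (i + 2)) :=
    fun b i => rec_real (fun i => (w i b).re) (hrecR b) i
  refine ⟨key1, key2, ?_, ?_, ?_⟩
  · intro i b
    have h1 : τ (j i (D.one i b)) = w i b := by rw [hw]
    have h2 : τ (j 0 (D.one 0 b)) = w 0 b := by rw [hw]
    rw [h1, h2, ← hform b i]
    apply Complex.ext
    · simp
    · simp [(hpos i b).2]
  · intro b
    have h2 : τ (j 0 (D.one 0 b)) = w 0 b := by rw [hw]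
    rw [h2]
    refine bound_real (fun i => (w i b).re) (fun i => (hpos i b).1) (fun i => ?_)
      (fun i => hform b i)
    have h3 := congrArg Complex.re (hsum' i b)
    rw [Complex.add_re, Complex.one_re] at h3
    have h4 := (hpos i (!b)).1
    change (w i b).re ≤ 1
    linarith
  · have h3 := congrArg Complex.re (hsum 0)
    rw [Complex.add_re, Complex.one_re, hw] at h3
    exact h3

end Pool.Agent.H400.ELMASS
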