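import Pool.Agent.H252.UQ.Iface

/-!
# Project UQ (helper252), task INT: the intertwining norm estimate on the source side
-/

set_option autoImplicit false

open scoped ComplexConjugate

noncomputable section

namespace Pool.Agent.H400.UQ

open Pool.Agent.H923R2.FP Pool.Agent.H923R2.FZ Pool.Agent.N300.UN Pool.Agent.H252.UQ

section calg

variable {B : Type} [CStarAlgebra B]

theorem sq_add3 {J : Type} [Fintype J] (a b e : J → B) :
    ‖∑ c, star (a c + b c + e c) * (a c + b c + e c)‖ ≤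
      3 * (‖∑ c, star (a c) * a c‖ + ‖∑ c, star (b c) * b c‖ + ‖∑ c, star (e c) * e c‖) := by
  let _ := CStarAlgebra.spectralOrder B
  let _ := CStarAlgebra.spectralOrderedRing B
  have h0 : (0 : B) ≤ ∑ c, star (a c + b c + e c) * (a c + b c + e c) :=
    Finset.sum_nonneg fun c _ => star_mul_self_nonneg _
  have h1 : ∑ c, star (a c + b c + e c) * (a c + b c + e c) ≤
      (3 : ℝ) • (∑ c, star (a c) * a c + ∑ c, star (b c) * b c + ∑ c, star (e c) * e c) := by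
    rw [← Finset.sum_add_distrib, ← Finset.sum_add_distrib, Finset.smul_sum]
    refine Finset.sum_le_sum fun c _ => ?_
    have h2 : 0 ≤ star (a c - b c) * (a c - b c) + star (b c - e c) * (b c - e c) +
        star (a c - e c) * (a c - e c) :=
      add_nonneg (add_nonneg (star_mul_self_nonneg _) (star_mul_self_nonneg _))
        (star_mul_self_nonneg _)
    have h3 : (3 : ℝ) • (star (a c) * a c + star (b c) * b c + star (e c) * e c) -
        star (a c + b c + e c) * (a c + b c + e c) = star (a c - b c) * (a c - b c) +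
        star (b c - e c) * (b c - e c) + star (a c - e c) * (a c - e c) := by
      rw [show (3 : ℝ) = 1 + 1 + 1 by norm_num, add_smul, add_smul, one_smul]
      simp only [star_add, star_sub, mul_add, add_mul, mul_sub, sub_mul]
      abel
    rw [← h3] at h2
    exact sub_nonneg.1 h2
  have h4 := CStarAlgebra.norm_le_norm_of_nonneg_of_le h0 h1
  rw [norm_smul, Real.norm_of_nonneg (by norm_num)] at h4
  refine h4.trans (mul_le_mul_of_nonneg_left ?_ (by norm_num))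
  exact (norm_add_le _ _).trans (add_le_add_left (norm_add_le _ _) _)

theorem norm_le_add {x y : B} {J J' : Type} [Fintype J] [Fintype J'] (a : J → B) (b : J' → B)
    (hx : x = ∑ c, star (a c) * a c) (hy : y = ∑ c, star (b c) * b c) : ‖x‖ ≤ ‖x + y‖ := by
  let _ := CStarAlgebra.spectralOrder B
  let _ := CStarAlgebra.spectralOrderedRing B
  have h0 : 0 ≤ x := by
    rw [hx]; exact Finset.sum_nonneg fun c _ => star_mul_self_nonneg _
  have h1 : 0 ≤ y := by
    rw [hy]; exact Finset.sum_nonneg fun c _ => star_mul_self_nonneg _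
  exact CStarAlgebra.norm_le_norm_of_nonneg_of_le h0 (le_add_of_nonneg_right h1)

variable {X : Type} [TopologicalSpace X]

theorem cr_mul (f g : C(X, ℝ)) : cr (f * g) = cr f * cr g := by
  ext x; simp

theorem cr_sub (f g : C(X, ℝ)) : cr (f - g) = cr f - cr g := by
  ext x; simp

theorem cr_star (f : C(X, ℝ)) : star (cr f) = cr f := by
  ext x; simp

variable [CompactSpace X]

theorem star_cr (χ : C(X, ℂ) →⋆ₐ[ℂ] B) (f : C(X, ℝ)) : star (χ (cr f)) = χ (cr f) := by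
  rw [← map_star, cr_star]

theorem norm_hom (χ : C(X, ℂ) →⋆ₐ[ℂ] B) (f : C(X, ℂ)) {r : ℝ} (hr : 0 ≤ r)
    (h : ∀ x, ‖f x‖ ≤ r) : ‖χ f‖ ≤ r :=
  (NonUnitalStarAlgHom.norm_apply_le χ f).trans ((ContinuousMap.norm_le f hr).2 h)

theorem hom_sq (χ : C(X, ℂ) →⋆ₐ[ℂ] B) {N : ℕ} (f : Fin N → C(X, ℝ)) :
    ∑ a, χ (cr (f a)) * χ (cr (f a)) = χ (∑ a, cr (f a) * cr (f a)) := by
  rw [map_sum]
  exact Finset.sum_congr rfl fun a _ => (map_mul _ _ _).symm

theorem norm_sq_le (χ : C(X, ℂ) →⋆ₐ[ℂ] B) {N : ℕ} (f : Fin N → C(X, ℝ)) {r : ℝ} (hr : 0 ≤ r)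
    (h : ∀ x, ∑ a, f a x ^ 2 ≤ r) :
    ‖∑ a, star (χ (cr (f a))) * χ (cr (f a))‖ ≤ r := by
  simp only [star_cr]
  rw [hom_sq]
  refine norm_hom χ _ hr fun x => ?_
  have e1 : (∑ a, cr (f a) * cr (f a)) x = ((∑ a, f a x ^ 2 : ℝ) : ℂ) := by
    rw [ContinuousMap.coe_sum, Finset.sum_apply, Complex.ofReal_sum]
    refine Finset.sum_congr rfl fun a _ => ?_
    rw [ContinuousMap.mul_apply, cr_apply]
    push_cast
    ring
  rw [e1, Complex.norm_real, Real.norm_of_nonneg (Finset.sum_nonneg fun a _ => sq_nonneg _)]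
  exact h x

theorem part_le (χ : C(X, ℂ) →⋆ₐ[ℂ] B) {N N' : ℕ}
    (f : Fin N → C(X, ℝ)) (y : Fin N' → B) (r : ℝ) (hr : 0 ≤ r) (h : ∀ x, ∑ a, f a x ^ 2 ≤ r) :
    ‖∑ c : Fin N × Fin N', star (χ (cr (f c.1)) * y c.2) * (χ (cr (f c.1)) * y c.2)‖ ≤
      r * ‖∑ q, star (y q) * y q‖ := by
  let g : C(X, ℝ) := ⟨fun x => √(r - ∑ a, f a x ^ 2), by fun_prop⟩
  have hg : ∀ x, g x ^ 2 = r - ∑ a, f a x ^ 2 := fun x => Real.sq_sqrt (sub_nonneg.2 (h x))
  have h1 : ∑ a, χ (cr (f a)) * χ (cr (f a)) + χ (cr g) * χ (cr g) = algebraMap ℂ B (r : ℂ) := by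
    rw [hom_sq, ← map_mul, ← map_add]
    have e1 : ∑ a, cr (f a) * cr (f a) + cr g * cr g = algebraMap ℂ C(X, ℂ) (r : ℂ) := by
      ext x
      rw [ContinuousMap.add_apply, ContinuousMap.coe_sum, Finset.sum_apply,
        ContinuousMap.mul_apply, cr_apply, algebraMap_apply]
      have e2 : ∀ a, (cr (f a) * cr (f a)) x = ((f a x ^ 2 : ℝ) : ℂ) := fun a => by
        rw [ContinuousMap.mul_apply, cr_apply]; push_cast; ring
      rw [Finset.sum_congr rfl fun a _ => e2 a, ← Complex.ofReal_sum, ← Complex.ofReal_mul,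
        ← Complex.ofReal_add, ← sq, hg x]
      simp
    rw [e1, AlgHomClass.commutes]
  have h2 : ∑ c : Fin N × Fin N', star (χ (cr (f c.1)) * y c.2) * (χ (cr (f c.1)) * y c.2) +
      ∑ q, star (χ (cr g) * y q) * (χ (cr g) * y q) = (r : ℂ) • ∑ q, star (y q) * y q := by
    rw [Fintype.sum_prod_type_right, ← Finset.sum_add_distrib, Finset.smul_sum]
    refine Finset.sum_congr rfl fun q _ => ?_
    have e3 : ∀ F : C(X, ℝ), star (χ (cr F) * y q) * (χ (cr F) * y q) =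
        star (y q) * (χ (cr F) * χ (cr F)) * y q := fun F => by
      rw [star_mul, star_cr]
      simp only [mul_assoc]
    simp only [e3]
    rw [← Finset.sum_mul, ← Finset.mul_sum, ← add_mul, ← mul_add, h1,
      Algebra.algebraMap_eq_smul_one, mul_smul_comm, mul_one, smul_mul_assoc]
  have h3 := norm_le_add (fun c : Fin N × Fin N' => χ (cr (f c.1)) * y c.2)
    (fun q : Fin N' => χ (cr g) * y q) rfl rfl
  rw [h2, norm_smul, Complex.norm_real, Real.norm_of_nonneg hr] at h3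
  exact h3

theorem cross {J : Type} [Fintype J] (V Y Z : J → B) {ζ : ℝ} (hV : ∀ c c', c ≠ c' → star (V c) * V c' = 0)
    (hY : ∀ c, ‖star (V c) * V c - star (Y c) * Y c‖ ≤ ζ) (hZ : ∀ c, ‖Z c‖ ≤ 2) (hζ : 0 ≤ ζ) :
    ‖∑ c, V c * Z c‖ ^ 2 ≤ ‖∑ c, star (Y c * Z c) * (Y c * Z c)‖ + Fintype.card J * (4 * ζ) := by
  classical
  have h1 : ‖∑ c, V c * Z c‖ ^ 2 = ‖star (∑ c, V c * Z c) * ∑ c, V c * Z c‖ := by
    rw [CStarRing.norm_star_mul_self, sq]
  have h2 : star (∑ c, V c * Z c) * ∑ c, V c * Z c =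
      ∑ c, star (Y c * Z c) * (Y c * Z c) +
        ∑ c, star (Z c) * (star (V c) * V c - star (Y c) * Y c) * Z c := by
    rw [star_sum, Finset.sum_mul_sum, ← Finset.sum_add_distrib]
    refine Finset.sum_congr rfl fun c _ => ?_
    rw [Finset.sum_eq_single c]
    · rw [star_mul, star_mul]
      noncomm_ring
    · intro c' _ hc
      rw [star_mul, mul_assoc, ← mul_assoc (star (V c)), hV c c' hc.symm, zero_mul, mul_zero]
    · intro hc
      exact absurd (Finset.mem_univ c) hc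
  rw [h1, h2]
  refine (norm_add_le _ _).trans (add_le_add_right ?_ _)
  refine (norm_sum_le _ _).trans ?_
  have h3 : ∀ c, ‖star (Z c) * (star (V c) * V c - star (Y c) * Y c) * Z c‖ ≤ 4 * ζ := by
    intro c
    have hz0 := norm_nonneg (Z c)
    calc _ ≤ ‖star (Z c)‖ * ‖star (V c) * V c - star (Y c) * Y c‖ * ‖Z c‖ :=
          (norm_mul_le _ _).trans (mul_le_mul_of_nonneg_right (norm_mul_le _ _) hz0)
      _ ≤ 2 * ζ * 2 := by
        rw [norm_star]
        refine mul_le_mul (mul_le_mul (hZ c) (hY c) (norm_nonneg _) (by norm_num)) (hZ c) hz0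
          (by positivity)
      _ = 4 * ζ := by ring
  refine (Finset.sum_le_sum fun c _ => h3 c).trans (le_of_eq ?_)
  rw [Finset.sum_const, Finset.card_univ, nsmul_eq_mul]

end calg

/-- **INT** -/
theorem s_INT : Pool.Agent.H252.UQ.S_INT := by
  intro n A _ χ ψ H N N' p h s h' ω t₀ ζ l G F k1 V hω hζ0 hζ1 ht0 ht1 hh hsum hsupp hh' hsum'
    hsupp' hk1 hG hF hcomm hV hY
  -- the cutoffs
  have hk01 : ∀ t, 0 ≤ k1 t ∧ k1 t ≤ 1 := fun t => by rw [hk1]; exact kp_01 _ _ _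
  have hk3 : ∀ t, 0 ≤ kp (1 / 8) 3 t ∧ kp (1 / 8) 3 t ≤ 1 := fun t => kp_01 _ _ _
  let zt : ℝ → unitInterval := fun t => ⟨k1 t, hk01 t⟩
  have hG' : ∀ q t, G q t = h' q (zt t) * kp (1 / 8) 3 t := fun q t => hG q t (zt t) rfl
  have hk3s : ∀ t, kp (1 / 8) 3 t ^ 2 ≤ 1 := fun t => pow_le_one₀ (hk3 t).1 (hk3 t).2
  have hsumG : ∀ t, ∑ q, G q t ^ 2 ≤ 1 := by
    intro t
    have e1 : ∑ q, G q t ^ 2 = (∑ q, h' q (zt t) ^ 2) * kp (1 / 8) 3 t ^ 2 := by
      rw [Finset.sum_mul]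
      exact Finset.sum_congr rfl fun q _ => by rw [hG', mul_pow]
    rw [e1, hsum', one_mul]
    exact hk3s t
  have hsumF : ∀ x : Cube n, ∑ q, ((F q).comp H) x ^ 2 ≤ 1 := by
    intro x
    refine le_trans (Finset.sum_le_sum fun q _ => ?_) (hsumG (H x))
    show F q (H x) ^ 2 ≤ G q (H x) ^ 2
    rw [hF, mul_pow]
    refine mul_le_of_le_one_right (sq_nonneg _) (pow_le_one₀ ?_ ?_)
    · have := (hk01 (H x)).2
      have h0 := (hk01 (H x)).1
      nlinarith
    · have h0 := (hk01 (H x)).1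
      nlinarith
  -- the functions `g_q = t₀ G_q (s_q - k₁)`
  let g : Fin N' → C(ℝ, ℝ) := fun q =>
    ⟨fun t => t₀ * G q t * ((s q : ℝ) - k1 t), by fun_prop⟩
  have hg : ∀ q t, g q t = t₀ * G q t * ((s q : ℝ) - k1 t) := fun q t => rfl
  have hsumg : ∀ x : Cube n, ∑ q, ((g q).comp H) x ^ 2 ≤ ω ^ 2 := by
    intro x
    set t := H x with ht
    have e1 : ∀ q, ((g q).comp H) x ^ 2 ≤ G q t ^ 2 * ω ^ 2 := by
      intro q
      show g q (H x) ^ 2 ≤ _
      rw [← ht, hg, mul_pow, mul_pow]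
      by_cases h0 : h' q (zt t) = 0
      · rw [hG', h0]
        simp
      · have h1 := hsupp' q (zt t) h0
        have h2 : |k1 t - (s q : ℝ)| < ω := by
          have : dist (zt t) (s q) = |k1 t - (s q : ℝ)| := rfl
          rwa [this] at h1
        have h3 : ((s q : ℝ) - k1 t) ^ 2 ≤ ω ^ 2 := by
          rw [← sq_abs, abs_sub_comm]
          exact pow_le_pow_left₀ (abs_nonneg _) h2.le 2
        have h4 : t₀ ^ 2 ≤ 1 := pow_le_one₀ ht0 ht1
        have h5 : t₀ ^ 2 * G q t ^ 2 ≤ G q t ^ 2 := mul_le_of_le_one_left (sq_nonneg _) h4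
        exact mul_le_mul h5 h3 (sq_nonneg _) (sq_nonneg _)
    refine (Finset.sum_le_sum fun q _ => e1 q).trans ?_
    rw [← Finset.sum_mul]
    exact mul_le_of_le_one_left (sq_nonneg _) (hsumG t)
  -- the functions on the cube
  let cR : C(Cube n, ℝ) := ⟨fun x => (x l : ℝ), by fun_prop⟩
  have hcR : cr cR = co l := rfl
  let f : Fin N → C(Cube n, ℝ) := fun a =>
    ⟨fun x => h a x * ((x l : ℝ) - (p a l : ℝ)), by fun_prop⟩
  have hf : ∀ a, cr (f a) = cr (h a) * (co l - algebraMap ℂ C(Cube n, ℂ) ((p a l : ℝ) : ℂ)) := by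
    intro a
    ext x
    show (((h a x * ((x l : ℝ) - (p a l : ℝ)) : ℝ)) : ℂ) = _
    rw [ContinuousMap.mul_apply, ContinuousMap.sub_apply, cr_apply]
    push_cast
    rfl
  have hsumf : ∀ x, ∑ a, f a x ^ 2 ≤ ω ^ 2 := by
    intro x
    have e1 : ∀ a, f a x ^ 2 ≤ h a x ^ 2 * ω ^ 2 := by
      intro a
      show (h a x * ((x l : ℝ) - (p a l : ℝ))) ^ 2 ≤ _
      rw [mul_pow]
      by_cases h0 : h a x = 0
      · rw [h0]; simp
      · have h1 := hsupp a x h0
        have h2 : dist (x l) (p a l) < ω := (dist_le_pi_dist x (p a) l).trans_lt h1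
        have h3 : |(x l : ℝ) - (p a l : ℝ)| < ω := h2
        refine mul_le_mul_of_nonneg_left ?_ (sq_nonneg _)
        rw [← sq_abs]
        exact pow_le_pow_left₀ (abs_nonneg _) h3.le 2
    refine (Finset.sum_le_sum fun a _ => e1 a).trans ?_
    rw [← Finset.sum_mul, hsum, one_mul]
  let ph : Fin N → C(Cube n, ℝ) := fun a => ⟨fun x => (p a l : ℝ) * h a x, by fun_prop⟩
  have hph : ∀ a, cr (ph a) = ((p a l : ℝ) : ℂ) • cr (h a) := by
    intro a
    ext x
    show (((p a l : ℝ) * h a x : ℝ) : ℂ) = _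
    rw [ContinuousMap.smul_apply, cr_apply, smul_eq_mul]
    push_cast
    rfl
  have hsump : ∀ x, ∑ a, ph a x ^ 2 ≤ 1 := by
    intro x
    rw [← hsum x]
    refine Finset.sum_le_sum fun a _ => ?_
    show ((p a l : ℝ) * h a x) ^ 2 ≤ h a x ^ 2
    rw [mul_pow]
    exact mul_le_of_le_one_left (sq_nonneg _) (pow_le_one₀ (p a l).2.1 (p a l).2.2)
  -- the elements
  set X1 : A := χ (co l) with hX1
  set K1 : A := ψ (cr (k1.comp H)) with hK1
  let Y : Fin N × Fin N' → A := fun c => χ (cr (h c.1)) * ψ (cr ((G c.2).comp H))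
  let Z : Fin N × Fin N' → A := fun c => (1 - (t₀ : ℂ) • K1) * X1 -
      algebraMap ℂ A (((1 - t₀ * (s c.2 : ℝ)) * (p c.1 l : ℝ) : ℝ) : ℂ)
  have hZn : ∀ c, ‖Z c‖ ≤ 2 := by
    intro c
    have hX1n : ‖X1‖ ≤ 1 := norm_hom χ _ zero_le_one fun x => by
      show ‖((x l : ℝ) : ℂ)‖ ≤ 1
      rw [Complex.norm_real, Real.norm_of_nonneg (x l).2.1]
      exact (x l).2.2
    let kk : C(Cube n, ℝ) := ⟨fun x => 1 - t₀ * k1 (H x), by fun_prop⟩
    have hkk : 1 - (t₀ : ℂ) • K1 = ψ (cr kk) := by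
      have e1 : cr kk = 1 - (t₀ : ℂ) • cr (k1.comp H) := by
        ext x
        show ((1 - t₀ * k1 (H x) : ℝ) : ℂ) = _
        rw [ContinuousMap.sub_apply, ContinuousMap.smul_apply, cr_apply, smul_eq_mul]
        push_cast
        rfl
      rw [e1, map_sub, map_one, map_smul]
    have hkn : ‖1 - (t₀ : ℂ) • K1‖ ≤ 1 := by
      rw [hkk]
      refine norm_hom ψ _ zero_le_one fun x => ?_
      rw [cr_apply, Complex.norm_real]
      show ‖1 - t₀ * k1 (H x)‖ ≤ 1
      have h0 := (hk01 (H x)).1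
      have h1 := (hk01 (H x)).2
      have h2 : t₀ * k1 (H x) ≤ 1 := mul_le_one₀ ht1 h0 h1
      have h3 : 0 ≤ t₀ * k1 (H x) := mul_nonneg ht0 h0
      rw [Real.norm_of_nonneg (by linarith)]
      linarith
    have hs : ‖algebraMap ℂ A (((1 - t₀ * (s c.2 : ℝ)) * (p c.1 l : ℝ) : ℝ) : ℂ)‖ ≤ 1 := by
      have e1 : algebraMap ℂ A (((1 - t₀ * (s c.2 : ℝ)) * (p c.1 l : ℝ) : ℝ) : ℂ) =
          χ (algebraMap ℂ C(Cube n, ℂ) (((1 - t₀ * (s c.2 : ℝ)) * (p c.1 l : ℝ) : ℝ) : ℂ)) :=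
        (AlgHomClass.commutes χ _).symm
      rw [e1]
      refine norm_hom χ _ zero_le_one fun x => ?_
      show ‖(((1 - t₀ * (s c.2 : ℝ)) * (p c.1 l : ℝ) : ℝ) : ℂ)‖ ≤ 1
      rw [Complex.norm_real]
      have h0 := (s c.2).2.1
      have h1 := (s c.2).2.2
      have h2 : t₀ * (s c.2 : ℝ) ≤ 1 := mul_le_one₀ ht1 h0 h1
      have h3 : 0 ≤ t₀ * (s c.2 : ℝ) := mul_nonneg ht0 h0
      have h4 := (p c.1 l).2.1
      have h5 := (p c.1 l).2.2
      rw [Real.norm_of_nonneg (mul_nonneg (by linarith) h4)]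
      exact mul_le_one₀ (by linarith) h4 h5
    calc ‖Z c‖ ≤ ‖(1 - (t₀ : ℂ) • K1) * X1‖ +
          ‖algebraMap ℂ A (((1 - t₀ * (s c.2 : ℝ)) * (p c.1 l : ℝ) : ℝ) : ℂ)‖ := norm_sub_le _ _
      _ ≤ 1 + 1 := add_le_add ((norm_mul_le _ _).trans
          (mul_le_one₀ hkn (norm_nonneg _) hX1n)) hs
      _ = 2 := by norm_num
  have h1 := cross V Y Z hV hY hZn hζ0
  refine h1.trans ?_
  rw [Fintype.card_prod, Fintype.card_fin, Fintype.card_fin]
  -- the decomposition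
  let a : Fin N × Fin N' → A := fun c => χ (cr (f c.1)) * ψ (cr ((F c.2).comp H))
  let b : Fin N × Fin N' → A := fun c => χ (cr (ph c.1)) * ψ (cr ((g c.2).comp H))
  let e : Fin N × Fin N' → A := fun c => χ (cr (h c.1)) *
    (ψ (cr ((F c.2).comp H)) * X1 - X1 * ψ (cr ((F c.2).comp H)))
  have hdec : ∀ c, Y c * Z c = a c + b c + e c := by
    intro c
    have e1 : ψ (cr ((G c.2).comp H)) * (1 - (t₀ : ℂ) • K1) = ψ (cr ((F c.2).comp H)) := by
      have e2 : cr ((F c.2).comp H) = cr ((G c.2).comp H) * (1 - (t₀ : ℂ) • cr (k1.comp H)) := by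
        ext x
        rw [ContinuousMap.mul_apply, ContinuousMap.sub_apply, ContinuousMap.smul_apply,
          cr_apply, cr_apply, cr_apply, smul_eq_mul]
        show ((F c.2 (H x) : ℝ) : ℂ) = ((G c.2 (H x) : ℝ) : ℂ) * (1 - t₀ * ((k1 (H x) : ℝ) : ℂ))
        rw [hF]
        push_cast
        ring
      rw [e2, map_mul, map_sub, map_one, map_smul]
    have e3 : ψ (cr ((g c.2).comp H)) = ψ (cr ((F c.2).comp H)) -
        ((1 - t₀ * (s c.2 : ℝ) : ℝ) : ℂ) • ψ (cr ((G c.2).comp H)) := by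
      rw [← map_smul, ← map_sub]
      congr 1
      ext x
      rw [ContinuousMap.sub_apply, ContinuousMap.smul_apply, cr_apply, cr_apply, cr_apply,
        smul_eq_mul]
      show ((g c.2 (H x) : ℝ) : ℂ) = ((F c.2 (H x) : ℝ) : ℂ) -
        ((1 - t₀ * (s c.2 : ℝ) : ℝ) : ℂ) * ((G c.2 (H x) : ℝ) : ℂ)
      rw [hg, hF]
      push_cast
      ring
    have e4 : χ (cr (f c.1)) = χ (cr (h c.1)) * (X1 - algebraMap ℂ A ((p c.1 l : ℝ) : ℂ)) := by
      rw [hf, map_mul, map_sub, AlgHomClass.commutes]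
    have e5 : χ (cr (ph c.1)) = ((p c.1 l : ℝ) : ℂ) • χ (cr (h c.1)) := by
      rw [hph, map_smul]
    show χ (cr (h c.1)) * ψ (cr ((G c.2).comp H)) * ((1 - (t₀ : ℂ) • K1) * X1 -
      algebraMap ℂ A (((1 - t₀ * (s c.2 : ℝ)) * (p c.1 l : ℝ) : ℝ) : ℂ)) =
      χ (cr (f c.1)) * ψ (cr ((F c.2).comp H)) + χ (cr (ph c.1)) * ψ (cr ((g c.2).comp H)) +
      χ (cr (h c.1)) * (ψ (cr ((F c.2).comp H)) * X1 - X1 * ψ (cr ((F c.2).comp H)))
    have e6 : (((1 - t₀ * (s c.2 : ℝ)) * (p c.1 l : ℝ) : ℝ) : ℂ) =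
        ((1 - t₀ * (s c.2 : ℝ) : ℝ) : ℂ) * ((p c.1 l : ℝ) : ℂ) := by
      push_cast
      ring
    rw [e3, e4, e5, e6, mul_sub, ← mul_assoc, mul_assoc (χ (cr (h c.1))), e1]
    rw [Algebra.algebraMap_eq_smul_one, Algebra.algebraMap_eq_smul_one]
    generalize ((p c.1 l : ℝ) : ℂ) = α
    generalize ((1 - t₀ * (s c.2 : ℝ) : ℝ) : ℂ) = β
    simp only [mul_sub, sub_mul, smul_mul_assoc, mul_smul_comm, smul_sub, mul_one, smul_smul,
      mul_assoc]
    abel
  have h2 : ∑ c, star (Y c * Z c) * (Y c * Z c) =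
      ∑ c, star (a c + b c + e c) * (a c + b c + e c) :=
    Finset.sum_congr rfl fun c _ => by rw [hdec]
  rw [h2]
  have hA : ‖∑ c, star (a c) * a c‖ ≤ ω ^ 2 := by
    refine (part_le χ f (fun q => ψ (cr ((F q).comp H))) (ω ^ 2) (sq_nonneg _) hsumf).trans ?_
    refine mul_le_of_le_one_right (sq_nonneg _) ?_
    exact norm_sq_le ψ (fun q => (F q).comp H) zero_le_one hsumF
  have hB : ‖∑ c, star (b c) * b c‖ ≤ ω ^ 2 := by
    refine (part_le χ ph (fun q => ψ (cr ((g q).comp H))) 1 zero_le_one hsump).trans ?_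
    rw [one_mul]
    exact norm_sq_le ψ (fun q => (g q).comp H) (sq_nonneg _) hsumg
  have hE : ‖∑ c, star (e c) * e c‖ ≤ (N * N') * (4 * ζ) := by
    refine (norm_sum_le _ _).trans ?_
    have h3 : ∀ c, ‖star (e c) * e c‖ ≤ 4 * ζ := by
      intro c
      have h4 : ‖e c‖ ≤ 2 * ζ := by
        have h5 : ‖χ (cr (h c.1))‖ ≤ 1 := norm_hom χ _ zero_le_one fun x => by
          rw [cr_apply, Complex.norm_real, Real.norm_of_nonneg (hh c.1 x).1]
          exact (hh c.1 x).2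
        refine (norm_mul_le _ _).trans ?_
        calc _ ≤ 1 * (2 * ζ) := mul_le_mul h5 (hcomm c.2) (norm_nonneg _) zero_le_one
          _ = 2 * ζ := one_mul _
      rw [CStarRing.norm_star_mul_self]
      calc ‖e c‖ * ‖e c‖ ≤ (2 * ζ) * (2 * ζ) :=
            mul_le_mul h4 h4 (norm_nonneg _) (by positivity)
        _ ≤ 4 * ζ := by nlinarith
    refine (Finset.sum_le_sum fun c _ => h3 c).trans (le_of_eq ?_)
    rw [Finset.sum_const, Finset.card_univ, nsmul_eq_mul, Fintype.card_prod, Fintype.card_fin,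
      Fintype.card_fin]
    push_cast
    ring
  have h3 := sq_add3 a b e
  have h4 : (0 : ℝ) ≤ (N * N') * ζ := by positivity
  push_cast
  nlinarith

end Pool.Agent.H400.UQ
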