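import Pool.Agent.H979.BK.Stm

/-!
# Project BK (MP_1e2081_pr): the lower bound
-/

set_option autoImplicit false

open Filter Topology Finset Pool.Agent.H979.BK

namespace Pool.Agent.H400

/-- the Markov operator is monotone -/
theorem KR_mono {d : ℕ} {μ : Equiv.Perm (Fin d) → ℝ} (hμ : IsProb μ) (δ : ℝ) (m : ℕ)
    (f g : (Fin d → ℝ) → ℝ) (h : ∀ w, f w ≤ g w) (w : Fin d → ℝ) :
    (KR μ δ)^[m] f w ≤ (KR μ δ)^[m] g w := by
  induction m generalizing f g w with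
  | zero => exact h w
  | succ m ih =>
    rw [Function.iterate_succ_apply, Function.iterate_succ_apply]
    refine ih _ _ (fun w => ?_) w
    unfold KR
    exact Finset.sum_le_sum fun σ _ => mul_le_mul_of_nonneg_left (h _) (hμ.1 σ)

/-- the exponents -/
theorem expo {γ η ε' δ m N C0 : ℝ} (hγ : 0 < γ) (hη0 : 0 < η) (hη1 : η < 1) (hε0 : 0 < ε')
    (hε' : ε' ≤ γ * η / 4) (hN : 1 ≤ N) (hδm : δ * m ≤ (1 - η) * (Real.log N / (2 * γ)))
    (hL : 4 * Real.exp C0 ≤ N ^ (η / 4)) (hL1 : 1 ≤ N ^ (η / 4)) :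
    4 * (N * N ^ (η / 4)) / N ^ 2 ≤ Real.exp (-2 * (γ + ε') * δ * m - C0) := by
  have hN0 : 0 < N := by linarith
  have hlog : 0 ≤ Real.log N := Real.log_nonneg hN
  have h1 : 2 * (γ + ε') * (δ * m) ≤ (1 - 3 * η / 4) * Real.log N := by
    have h2 : 2 * (γ + ε') * (δ * m) ≤ 2 * (γ + ε') * ((1 - η) * (Real.log N / (2 * γ))) :=
      mul_le_mul_of_nonneg_left hδm (by positivity)
    have h3 : 2 * (γ + ε') * ((1 - η) * (Real.log N / (2 * γ))) =
        ((γ + ε') / γ) * (1 - η) * Real.log N := by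
      field_simp
    have h4 : (γ + ε') / γ ≤ 1 + η / 4 := by
      rw [div_le_iff₀ hγ]
      nlinarith
    have h5 : ((γ + ε') / γ) * (1 - η) ≤ (1 + η / 4) * (1 - η) :=
      mul_le_mul_of_nonneg_right h4 (by linarith)
    have h6 : (1 + η / 4) * (1 - η) ≤ 1 - 3 * η / 4 := by nlinarith
    rw [h3] at h2
    exact h2.trans (mul_le_mul_of_nonneg_right (h5.trans h6) hlog)
  set L : ℝ := N ^ (η / 4) with hLdef
  have hLe : L = Real.exp (Real.log N * (η / 4)) := by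
    rw [hLdef, Real.rpow_def_of_pos hN0]
  have h7 : Real.exp (-(1 - 3 * η / 4) * Real.log N - C0) = N⁻¹ * L ^ 3 * Real.exp (-C0) := by
    rw [hLe, ← Real.exp_nat_mul]
    have e1 : N⁻¹ = Real.exp (-Real.log N) := by rw [Real.exp_neg, Real.exp_log hN0]
    rw [e1, ← Real.exp_add, ← Real.exp_add]
    congr 1
    push_cast
    ring
  have h8 : Real.exp (-(1 - 3 * η / 4) * Real.log N - C0) ≤
      Real.exp (-2 * (γ + ε') * δ * m - C0) := by
    refine Real.exp_le_exp.2 ?_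
    have : -2 * (γ + ε') * δ * m = -(2 * (γ + ε') * (δ * m)) := by ring
    rw [this]
    linarith
  refine le_trans ?_ h8
  rw [h7]
  have h9 : 4 * (N * L) / N ^ 2 = N⁻¹ * (4 * L) := by
    field_simp
  rw [h9, mul_assoc]
  refine mul_le_mul_of_nonneg_left ?_ (inv_nonneg.2 hN0.le)
  have h10 : 4 ≤ L * Real.exp (-C0) := by
    have h11 := mul_le_mul_of_nonneg_right hL (Real.exp_pos (-C0)).le
    rwa [mul_assoc, ← Real.exp_add, add_neg_cancel, Real.exp_zero, mul_one] at h11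
  have h12 : L ≤ L ^ 2 := by nlinarith
  have h13 : L ^ 3 * Real.exp (-C0) = L ^ 2 * (L * Real.exp (-C0)) := by ring
  rw [h13]
  have h14 : L ^ 2 * 4 ≤ L ^ 2 * (L * Real.exp (-C0)) :=
    mul_le_mul_of_nonneg_left h10 (sq_nonneg L)
  linarith

/-- the stationary measure of the event -/
theorem stat_le (hSV : S_STATVAR) {d n : ℕ} (hd : 1 ≤ d) (hn : 1 ≤ n) (j0 : Fin d) {Θ ε : ℝ}
    (hΘ : 0 < Θ) (hε : 0 ≤ ε) (h : (d : ℝ) * n ≤ ε * Θ) :
    stat d n {x | Θ ≤ ∑ l, ((x l j0 : ℝ) - (n : ℝ) / d) ^ 2} ≤ ε := by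
  classical
  have hs := hSV d n hd hn
  unfold stat
  refine div_le_of_le_mul₀ (Nat.cast_nonneg _) hε ?_
  have h1 : ∀ c : Ball d n → Fin d,
      Set.indicator {x : Fin d → Fin d → ℕ | Θ ≤ ∑ l, ((x l j0 : ℝ) - (n : ℝ) / d) ^ 2}
        (fun _ => (1 : ℝ)) (cnt c Prod.fst) ≤
      (∑ l, ((cnt c Prod.fst l j0 : ℝ) - (n : ℝ) / d) ^ 2) / Θ := by
    intro c
    by_cases hc : Θ ≤ ∑ l, ((cnt c Prod.fst l j0 : ℝ) - (n : ℝ) / d) ^ 2
    · rw [Set.indicator_of_mem (by exact hc), le_div_iff₀ hΘ, one_mul]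
      exact hc
    · rw [Set.indicator_of_notMem (by exact hc)]
      positivity
  refine (Finset.sum_le_sum fun c _ => h1 c).trans ?_
  rw [← Finset.sum_div, Finset.sum_comm, div_le_iff₀ hΘ]
  refine (Finset.sum_le_sum fun l _ => hs l j0).trans ?_
  rw [Finset.sum_const, Finset.card_univ, Fintype.card_fin, nsmul_eq_mul]
  have h2 := mul_le_mul_of_nonneg_right h
    (Nat.cast_nonneg (α := ℝ) (univ.filter (fun c : Ball d n → Fin d => Bal c)).card)
  calc _ = (d : ℝ) * n * ((univ.filter (fun c : Ball d n → Fin d => Bal c)).card : ℝ) := by ring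
    _ ≤ _ := h2
    _ = _ := by ring

theorem bk_lower (hA1 : S_A1) (hGAP : S_GAP) (hSV : S_STATVAR) (hN : S_NOISE) (hR : S_RPC) :
    S_LOWER := by
  intro d μ hd hμ hirr k hk hlim η ε hη0 hη1 hε
  have hγ : 0 < gap μ := (hGAP d μ hd hμ hirr).1
  obtain ⟨C, hC, hN⟩ := hN d μ hd hμ hirr
  obtain ⟨j0, hR⟩ := hR d μ hd hμ hirr
  obtain ⟨ε', hε', hε'1, hε'2⟩ : ∃ ε' : ℝ, 0 < ε' ∧ ε' ≤ ε / 2 ∧ ε' ≤ gap μ * η / 4 :=
    ⟨min (ε / 2) (gap μ * η / 4), lt_min (by positivity) (by positivity), min_le_left _ _,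
      min_le_right _ _⟩
  obtain ⟨δ0, C0, hδ0, hR⟩ := hR ε' hε'
  have ev1 : ∀ᶠ n : ℕ in atTop, (k n : ℝ) / n < min δ0 (1 / 2) :=
    (tendsto_order.1 hlim).2 _ (lt_min hδ0 (by norm_num))
  have ev2 : ∀ᶠ n : ℕ in atTop,
      2 * C / ε + d / ε + 4 * Real.exp C0 + 1 ≤ (n : ℝ) ^ (η / 4) :=
    ((tendsto_rpow_atTop (by positivity)).comp
      tendsto_natCast_atTop_atTop).eventually_ge_atTop _
  filter_upwards [ev1, ev2, eventually_ge_atTop 1] with n h1 h2 hn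
  have hn1 : (1 : ℝ) ≤ n := by exact_mod_cast hn
  have hn0 : (0 : ℝ) < n := by linarith
  have hk1 : (1 : ℝ) ≤ k n := by exact_mod_cast (hk n hn).1
  have hk0 : (0 : ℝ) < k n := by linarith
  obtain ⟨L, hL⟩ : ∃ L : ℝ, L = (n : ℝ) ^ (η / 4) := ⟨_, rfl⟩
  rw [← hL] at h2
  have q1 : 0 ≤ 2 * C / ε := by positivity
  have q2 : 0 ≤ (d : ℝ) / ε := by positivity
  have q3 : 0 < 4 * Real.exp C0 := by positivity
  have hL1 : 1 ≤ L := by linarith
  have hL0 : 0 < L := by linarith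
  have hLC : C ≤ ε / 2 * L := by
    have h3 : 2 * C / ε ≤ L := by linarith
    rw [div_le_iff₀ hε] at h3
    linarith
  have hLd : (d : ℝ) ≤ ε * L := by
    have h3 : (d : ℝ) / ε ≤ L := by linarith
    rw [div_le_iff₀ hε] at h3
    linarith
  have hLe : 4 * Real.exp C0 ≤ L := by linarith
  have hnL : 0 < (n : ℝ) * L := mul_pos hn0 hL0
  have hθ0 : 0 < √((n : ℝ) * L) := Real.sqrt_pos.2 hnL
  have hθ2 : √((n : ℝ) * L) ^ 2 = n * L := Real.sq_sqrt hnL.le
  refine ⟨{x | (n : ℝ) * L ≤ ∑ l, ((x l j0 : ℝ) - (n : ℝ) / d) ^ 2}, ?_, ?_⟩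
  · refine stat_le hSV (by omega) hn j0 hnL hε.le ?_
    have := mul_le_mul_of_nonneg_right hLd hn0.le
    linarith
  · intro m hm
    have h2k : 2 * k n ≤ n := by
      have h3 : (k n : ℝ) / n < 1 / 2 := h1.trans_le (min_le_right _ _)
      rw [div_lt_iff₀ hn0] at h3
      have h4 : (2 : ℝ) * k n ≤ n := by linarith
      exact_mod_cast h4
    have h4 := hN n (k n) (hk n hn).1 h2k m j0 (√((n : ℝ) * L)) hθ0
    have h5 := hR ((k n : ℝ) / n) (by positivity) (h1.trans_le (min_le_left _ _)) m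
    have hδm : (k n : ℝ) / n * m ≤ (1 - η) * (Real.log n / (2 * gap μ)) := by
      have h6 := mul_le_mul_of_nonneg_left hm (show (0 : ℝ) ≤ (k n : ℝ) / n by positivity)
      refine h6.trans (le_of_eq ?_)
      field_simp
    have hexp := expo (C0 := C0) hγ hη0 hη1 hε' hε'2 hn1 hδm (by rw [← hL]; exact hLe)
      (by rw [← hL]; exact hL1)
    rw [← hL] at hexp
    have h6 : ∀ w : Fin d → ℝ, (n : ℝ) ^ 2 * ∑ l, (w l - 1 / (d : ℝ)) ^ 2 <
        4 * √((n : ℝ) * L) ^ 2 → ∑ l, (w l - 1 / (d : ℝ)) ^ 2 <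
        Real.exp (-2 * (gap μ + ε') * ((k n : ℝ) / n) * m - C0) := by
      intro w hw
      refine lt_of_lt_of_le ?_ hexp
      rw [lt_div_iff₀ (by positivity)]
      rw [hθ2] at hw
      linarith
    have h7 := h4.trans (add_le_add_left ((KR_mono hμ ((k n : ℝ) / n) m _ _ (fun w => ?_) _).trans
      h5) _)
    · obtain ⟨p, hp0, hp1, -, hpE⟩ := hA1 d n (k n) μ hμ (hk n hn).2 m
      rw [hpE] at h7 ⊢
      have h8 : ∀ u : Ball d n → Fin d,
          Set.indicator {x : Fin d → Fin d → ℕ | (n : ℝ) * L ≤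
            ∑ l, ((x l j0 : ℝ) - (n : ℝ) / d) ^ 2} (fun _ => (1 : ℝ)) (cnt Prod.fst u) =
          1 - if ∑ l, ((cnt Prod.fst u l j0 : ℝ) - (n : ℝ) / d) ^ 2 < √((n : ℝ) * L) ^ 2 then
            1 else 0 := by
        intro u
        rw [hθ2]
        by_cases hu : (n : ℝ) * L ≤ ∑ l, ((cnt Prod.fst u l j0 : ℝ) - (n : ℝ) / d) ^ 2
        · rw [Set.indicator_of_mem (by exact hu), if_neg (not_lt.2 hu), sub_zero]
        · rw [Set.indicator_of_notMem (by exact hu), if_pos (not_le.1 hu), sub_self]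
      have h9 : ∑ u, p u * Set.indicator {x : Fin d → Fin d → ℕ | (n : ℝ) * L ≤
            ∑ l, ((x l j0 : ℝ) - (n : ℝ) / d) ^ 2} (fun _ => (1 : ℝ)) (cnt Prod.fst u) =
          1 - ∑ u, p u * if ∑ l, ((cnt Prod.fst u l j0 : ℝ) - (n : ℝ) / d) ^ 2 <
            √((n : ℝ) * L) ^ 2 then 1 else 0 := by
        rw [Finset.sum_congr rfl (fun u _ => by rw [h8 u, mul_sub, mul_one]),
          Finset.sum_sub_distrib, hp1]
      rw [h9]
      have h10 : C * n / √((n : ℝ) * L) ^ 2 ≤ ε / 2 := by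
        rw [hθ2, div_le_iff₀ hnL]
        have := mul_le_mul_of_nonneg_right hLC hn0.le
        linarith
      linarith
    · by_cases hw : (n : ℝ) ^ 2 * ∑ l, (w l - 1 / (d : ℝ)) ^ 2 < 4 * √((n : ℝ) * L) ^ 2
      · rw [if_pos hw, if_pos (h6 w hw)]
      · rw [if_neg hw]
        split_ifs
        · exact zero_le_one
        · exact le_rfl

end Pool.Agent.H400
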