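import Pool.Agent.H724.DL.Stm

/-! DL-LET (helper400 for helper724): letters at the positions of the synchronised run. -/

set_option autoImplicit false

namespace Pool.Agent.H400.DLLET

open Pool.Agent.H724.DL

theorem pos_mod {m b c k s : ℕ} (h : b % 5 ^ (m + 1) = c * 5 ^ m) :
    (b + (k * 5 ^ (m + 1) + s * 5 ^ m)) % 5 ^ m = 0 := by
  have h1 := Nat.div_add_mod b (5 ^ (m + 1))
  rw [h] at h1
  have h2 : b + (k * 5 ^ (m + 1) + s * 5 ^ m) =
      5 ^ m * (5 * (b / 5 ^ (m + 1)) + c + 5 * k + s) := by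
    generalize b / 5 ^ (m + 1) = q at h1
    rw [← h1]
    ring
  rw [h2]
  exact Nat.mul_mod_right _ _

theorem pos_mod' {m b c k s : ℕ} (h : b % 5 ^ (m + 1) = c * 5 ^ m) :
    (b + (k * 5 ^ (m + 1) + s * 5 ^ m)) % 5 ^ (m + 1) = ((c + s) % 5) * 5 ^ m := by
  have h1 := Nat.div_add_mod b (5 ^ (m + 1))
  rw [h] at h1
  have h2 : b + (k * 5 ^ (m + 1) + s * 5 ^ m) =
      ((c + s) * 5 ^ m) + 5 ^ (m + 1) * (b / 5 ^ (m + 1) + k) := by
    generalize b / 5 ^ (m + 1) = q at h1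
    rw [← h1]
    ring
  rw [h2, Nat.add_mul_mod_self_left, pow_succ, mul_comm (5 ^ m) 5, Nat.mul_mod_mul_right]

theorem let_ : S_LET := by
  intro Γ X Y m al be N i0 j0 hX hY hi hj h3 h1 k s
  have h1' : (j0 + be) % 5 ^ (m + 1) = 1 * 5 ^ m := by rw [h1, one_mul]
  refine ⟨fun t' ht0 ht => ?_, fun hs => ?_, fun hs => ?_⟩
  · obtain ⟨l, r, hr0, hr5, hr⟩ := exists_low ht0
    have hl : l < m := low_lt hr0 hr ht
    have hx := hX l hl.le r hr0 hr5 (i0 + (k * 5 ^ (m + 1) + s * 5 ^ m + t')) (by omega) (by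
      have e : i0 + (k * 5 ^ (m + 1) + s * 5 ^ m + t') + al =
        (i0 + al + (k * 5 ^ (m + 1) + s * 5 ^ m)) + t' := by omega
      rw [e, add_mod_low hl (pos_mod h3), hr])
    have hy := hY l hl.le r hr0 hr5 (j0 + (k * 5 ^ (m + 1) + s * 5 ^ m + t')) (by omega) (by
      have e : j0 + (k * 5 ^ (m + 1) + s * 5 ^ m + t') + be =
        (j0 + be + (k * 5 ^ (m + 1) + s * 5 ^ m)) + t' := by omega
      rw [e, add_mod_low hl (pos_mod h1'), hr])
    rw [hx, hy]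
  · have hx := hX m le_rfl ((3 + s) % 5) (Nat.pos_of_ne_zero hs) (Nat.mod_lt _ (by norm_num))
      (i0 + (k * 5 ^ (m + 1) + s * 5 ^ m)) (by omega) (by
        have e : i0 + (k * 5 ^ (m + 1) + s * 5 ^ m) + al =
          i0 + al + (k * 5 ^ (m + 1) + s * 5 ^ m) := by omega
        rw [e, pos_mod' h3])
    rw [hx, ZMod.natCast_mod]
  · have hy := hY m le_rfl ((1 + s) % 5) (Nat.pos_of_ne_zero hs) (Nat.mod_lt _ (by norm_num))
      (j0 + (k * 5 ^ (m + 1) + s * 5 ^ m)) (by omega) (by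
        have e : j0 + (k * 5 ^ (m + 1) + s * 5 ^ m) + be =
          j0 + be + (k * 5 ^ (m + 1) + s * 5 ^ m) := by omega
        rw [e, pos_mod' h1'])
    rw [hy, ZMod.natCast_mod]

end Pool.Agent.H400.DLLET

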