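import Pool.Agent.H979.FC.Stm

/-!
# Project FC: global form and monotonicity of the condition `HH`
-/

set_option autoImplicit false

namespace Pool.Agent.H400

open Pool.Agent.H979.FR Pool.Agent.H979.FC
open scoped ENNReal

lemma fcq_nonneg (k : ℕ) (t : ℝ) (ht : 0 < t) : 0 ≤ q k t := by
  unfold q
  positivity

lemma fcq_pos (k : ℕ) (t : ℝ) (ht : 0 < t) : 0 < q k t := by
  unfold q
  positivity

lemma fc_c_nonneg (d : ℕ) (lam t : ℝ) (hl : 0 < lam) (ht : 0 < t) :
    0 ≤ (1 - Real.exp (-(lam * q 1 t / d)))⁻¹ := by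
  apply inv_nonneg.mpr
  have h1 : 0 ≤ lam * q 1 t / d := by
    have := fcq_nonneg 1 t ht
    positivity
  have h2 : Real.exp (-(lam * q 1 t / d)) ≤ 1 := Real.exp_le_one_iff.mpr (by linarith)
  linarith

theorem fc_hhm : S_HHM := by
  intro d hd lam lam' t hl ht hll
  unfold HH
  have h0 : ∀ k : ℕ, (if 2 ≤ k then ENNReal.ofReal
      ((k : ℝ) ^ 2 * ((1 - Real.exp (-(lam * q 1 t / d)))⁻¹) ^ k * (lam * q k t - lam' * q k t))
      else 0) = 0 := by
    intro k
    split_ifs with h
    · apply ENNReal.ofReal_of_nonpos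
      have h1 := fc_c_nonneg d lam t hl ht
      have h2 : lam * q k t - lam' * q k t ≤ 0 := by
        have := mul_le_mul_of_nonneg_right hll (fcq_nonneg k t ht)
        linarith
      exact mul_nonpos_of_nonneg_of_nonpos (by positivity) h2
    · rfl
  simp only [h0, tsum_zero, mul_zero, add_zero]
  exact ENNReal.ofReal_le_ofReal (mul_le_mul_of_nonneg_right hll (fcq_nonneg 1 t ht))

theorem fc_hhg : S_HHG := by
  intro d hd lam t t' hl ht ht'
  set c : ℝ := (1 - Real.exp (-(lam * q 1 t / d)))⁻¹ with hc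
  have hc0 : 0 ≤ c := fc_c_nonneg d lam t hl ht
  -- the majorant
  let f : ℕ → ℝ := fun k => lam * Real.exp (-t) * ((4 * (c * t)) ^ k / k.factorial)
  have hf0 : ∀ k, 0 ≤ f k := fun k => by
    change 0 ≤ lam * Real.exp (-t) * ((4 * (c * t)) ^ k / k.factorial)
    positivity
  have hfs : Summable f := (Real.summable_pow_div_factorial (4 * (c * t))).mul_left _
  have hle : ∀ (lam' : ℝ), 0 < lam' → ∀ k : ℕ, (if 2 ≤ k then ENNReal.ofReal
      ((k : ℝ) ^ 2 * c ^ k * (lam * q k t - lam' * q k t')) else 0) ≤ ENNReal.ofReal (f k) := by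
    intro lam' hl' k
    split_ifs with h
    · apply ENNReal.ofReal_le_ofReal
      have h1 : lam * q k t - lam' * q k t' ≤ lam * q k t := by
        have := mul_nonneg hl'.le (fcq_nonneg k t' ht')
        linarith
      have h2 : (k : ℝ) ^ 2 ≤ 4 ^ k := by
        have h3 : (k : ℝ) ≤ 2 ^ k := by
          exact_mod_cast (Nat.lt_two_pow_self (n := k)).le
        calc (k : ℝ) ^ 2 ≤ (2 ^ k) ^ 2 := pow_le_pow_left₀ (by positivity) h3 2
          _ = 4 ^ k := by rw [← pow_mul, mul_comm, pow_mul]; norm_num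
      calc (k : ℝ) ^ 2 * c ^ k * (lam * q k t - lam' * q k t')
          ≤ (k : ℝ) ^ 2 * c ^ k * (lam * q k t) :=
            mul_le_mul_of_nonneg_left h1 (by positivity)
        _ ≤ 4 ^ k * c ^ k * (lam * q k t) := by
            have := fcq_nonneg k t ht
            apply mul_le_mul_of_nonneg_right _ (by positivity)
            exact mul_le_mul_of_nonneg_right h2 (by positivity)
        _ = f k := by
            change _ = lam * Real.exp (-t) * ((4 * (c * t)) ^ k / k.factorial)
            unfold q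
            rw [mul_pow, mul_pow]
            ring
    · exact zero_le
  have hfin : ∑' k, ENNReal.ofReal (f k) ≠ ⊤ := by
    rw [← ENNReal.ofReal_tsum_of_nonneg hf0 hfs]
    exact ENNReal.ofReal_ne_top
  set B : ℝ≥0∞ := ENNReal.ofReal (lam * q 1 t) + 2 * ∑' k, ENNReal.ofReal (f k) with hB
  have hBfin : B ≠ ⊤ :=
    ENNReal.add_ne_top.mpr ⟨ENNReal.ofReal_ne_top, ENNReal.mul_ne_top (by norm_num) hfin⟩
  have hq := fcq_pos 1 t' ht'
  refine ⟨(B.toReal + 1) / q 1 t', by positivity, ?_⟩
  unfold HH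
  rw [div_mul_cancel₀ _ hq.ne']
  calc ENNReal.ofReal (lam * q 1 t) + 2 * ∑' k : ℕ, (if 2 ≤ k then ENNReal.ofReal
        ((k : ℝ) ^ 2 * c ^ k * (lam * q k t - (B.toReal + 1) / q 1 t' * q k t')) else 0)
      ≤ B := by
        rw [hB]
        apply add_le_add le_rfl
        apply mul_le_mul_right
        exact ENNReal.tsum_le_tsum (hle _ (by positivity))
    _ = ENNReal.ofReal B.toReal := (ENNReal.ofReal_toReal hBfin).symm
    _ ≤ ENNReal.ofReal (B.toReal + 1) := ENNReal.ofReal_le_ofReal (by linarith)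

end Pool.Agent.H400
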