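import Pool.Agent.H867.FT.Gen4
import Pool.Agent.H261.FT867PSC

/-!
# The explicit Frobenius splitting in the extremal example
-/

set_option autoImplicit false

namespace Pool.Agent.H400.FT867EXF

open Pool.Agent.H867.FT

section Gen

variable {P R L K : Type} [CommRing P] [CommRing R] [Algebra P R]
  [Field L] [Algebra P L] [IsFractionRing P L] [Field K] [Algebra R K]
  [Algebra P K] [IsScalarTower P R K] [Algebra L K] [IsScalarTower P L K]
  {C : Submodule R K} {a c d : P} {x y₀ : K} {ω θ : R}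

omit [IsFractionRing P L] in
lemma tr_smul (g : P) (y : K) :
    Algebra.trace L K (algebraMap P K g * y) = algebraMap P L g * Algebra.trace L K y := by
  rw [IsScalarTower.algebraMap_apply P L K, ← Algebra.smul_def, map_smul, smul_eq_mul]

omit [IsFractionRing P L] in
lemma tr_mat (hI : IsCub L C a 0 c d x y₀ ω θ) (h0 : Algebra.trace L K y₀ = 0)
    (h1 : Algebra.trace L K (y₀ * x) = 0)
    (h2 : algebraMap P L a * Algebra.trace L K (y₀ * x ^ 2) = 1) (g0 g1 g2 r0 r1 r2 : P) :
    Algebra.trace L K (y₀ * (algebraMap P K g0 + algebraMap P K g1 * x +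
      algebraMap P K g2 * algebraMap R K θ) *
      algebraMap R K (algebraMap P R r0 + r1 • ω + r2 • θ)) =
    algebraMap P L (g0 * r2 + g1 * r1 + g2 * (r0 + c * r2)) := by
  have hr := hI.root
  have hω := hI.hω
  have hθ := hI.hθ
  rw [map_zero, zero_mul, add_zero] at hr hθ
  have key : y₀ * (algebraMap P K g0 + algebraMap P K g1 * x +
      algebraMap P K g2 * algebraMap R K θ) *
      algebraMap R K (algebraMap P R r0 + r1 • ω + r2 • θ) =
      algebraMap P K (g0 * r0 + g0 * r2 * c - g1 * r2 * d + g2 * r0 * c - g2 * r1 * a * d +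
        g2 * r2 * c ^ 2) * y₀ +
      algebraMap P K (g0 * r1 * a + g1 * r0 - g2 * r2 * a * d) * (y₀ * x) +
      algebraMap P K ((g0 * r2 + g1 * r1 + g2 * (r0 + c * r2)) * a) * (y₀ * x ^ 2) := by
    rw [Algebra.smul_def, Algebra.smul_def]
    simp only [map_add, map_mul, map_sub, map_pow, ← IsScalarTower.algebraMap_apply P R K]
    rw [hω, hθ]
    linear_combination (y₀ * (algebraMap P K g1 * algebraMap P K r2 + algebraMap P K g2 *
      algebraMap P K r1 * algebraMap P K a + algebraMap P K g2 * algebraMap P K r2 *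
      algebraMap P K a * x)) * hr
  rw [key, map_add, map_add, tr_smul, tr_smul, tr_smul, h0, h1, mul_zero, mul_zero, map_mul,
    mul_assoc, h2]
  ring

/-- the numerators of the traces of powers of `x` -/
def sg (a c d : P) : ℕ → P
  | 0 => 1
  | 1 => 0
  | 2 => -(a * c)
  | (j + 3) => -(a * c * sg a c d (j + 1)) - a ^ 2 * d * sg a c d j

/-- the traces of powers of `θ` -/
def rh (a c d : P) : ℕ → P
  | 0 => 0
  | 1 => 1
  | 2 => c
  | (j + 3) => c * rh a c d (j + 2) + a * d ^ 2 * rh a c d j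

omit [IsFractionRing P L] in
lemma tr_x (hI : IsCub L C a 0 c d x y₀ ω θ) (i : ℕ) :
    algebraMap P L a * Algebra.trace L K (y₀ * x ^ (i + 3)) =
      - (algebraMap P L c * Algebra.trace L K (y₀ * x ^ (i + 1))) -
        algebraMap P L d * Algebra.trace L K (y₀ * x ^ i) := by
  have hr := hI.root
  rw [map_zero, zero_mul, add_zero] at hr
  rw [← tr_smul, ← tr_smul, ← tr_smul, ← map_neg, ← map_sub]
  congr 1
  linear_combination (y₀ * x ^ i) * hr

omit [IsFractionRing P L] in
lemma sg_spec (hI : IsCub L C a 0 c d x y₀ ω θ) (h0 : Algebra.trace L K y₀ = 0)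
    (h1 : Algebra.trace L K (y₀ * x) = 0)
    (h2 : algebraMap P L a * Algebra.trace L K (y₀ * x ^ 2) = 1) (j : ℕ) :
    algebraMap P L (sg a c d j) =
      algebraMap P L a ^ (j + 1) * Algebra.trace L K (y₀ * x ^ (j + 2)) := by
  induction j using Nat.strong_induction_on with
  | _ j ih =>
    match j with
    | 0 => rw [sg, map_one, zero_add, pow_one]; exact h2.symm
    | 1 =>
      rw [sg, map_zero]
      have h3 := tr_x hI 0
      rw [zero_add, zero_add, pow_zero, mul_one, h0, pow_one, h1] at h3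
      rw [pow_succ, mul_assoc, h3]
      simp
    | 2 =>
      have h3 := tr_x hI 1
      rw [pow_one, h1] at h3
      have h4 : algebraMap P L a ^ (2 + 1) * Algebra.trace L K (y₀ * x ^ (2 + 2)) =
          algebraMap P L a ^ 2 * (algebraMap P L a * Algebra.trace L K (y₀ * x ^ (1 + 3))) := by
        ring_nf
      rw [show 1 + 1 = 2 from rfl] at h3
      rw [h4, h3, sg, map_neg, map_mul]
      linear_combination (algebraMap P L a * algebraMap P L c) * h2
    | (j + 3) =>
      have h3 := tr_x hI (j + 2)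
      have h5 := ih (j + 1) (by omega)
      have h6 := ih j (by omega)
      have h4 : algebraMap P L a ^ (j + 3 + 1) * Algebra.trace L K (y₀ * x ^ (j + 3 + 2)) =
          algebraMap P L a ^ (j + 3) *
            (algebraMap P L a * Algebra.trace L K (y₀ * x ^ (j + 2 + 3))) := by
        rw [show j + 3 + 2 = j + 2 + 3 by omega]
        ring
      rw [h4, h3, sg, map_sub, map_neg, map_mul, map_mul, map_mul, map_mul, map_pow, h5, h6]
      rw [show j + 1 + 2 = j + 2 + 1 by omega]
      ring

omit [IsFractionRing P L] in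
lemma rh_spec (hI : IsCub L C a 0 c d x y₀ ω θ) (h0 : Algebra.trace L K y₀ = 0)
    (h1 : Algebra.trace L K (y₀ * x) = 0)
    (h2 : algebraMap P L a * Algebra.trace L K (y₀ * x ^ 2) = 1) (j : ℕ) :
    algebraMap P L (rh a c d j) = Algebra.trace L K (y₀ * algebraMap R K θ ^ j) := by
  have hr := hI.root
  have hθ := hI.hθ
  rw [map_zero, zero_mul, add_zero] at hr hθ
  induction j using Nat.strong_induction_on with
  | _ j ih =>
    match j with
    | 0 => rw [rh, map_zero, pow_zero, mul_one, h0]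
    | 1 =>
      rw [rh, map_one, pow_one, hθ]
      have h3 : y₀ * (algebraMap P K a * x ^ 2 + algebraMap P K c) =
          algebraMap P K a * (y₀ * x ^ 2) + algebraMap P K c * y₀ := by ring
      rw [h3, map_add, tr_smul, tr_smul, h0, h2]
      ring
    | 2 =>
      rw [rh, hθ]
      have h3 : y₀ * (algebraMap P K a * x ^ 2 + algebraMap P K c) ^ 2 =
          algebraMap P K (a * c) * (y₀ * x ^ 2) + algebraMap P K (-(a * d)) * (y₀ * x) +
            algebraMap P K (c ^ 2) * y₀ := by
        rw [map_mul, map_neg, map_mul, map_pow]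
        linear_combination (y₀ * algebraMap P K a * x) * hr
      rw [h3, map_add, map_add, tr_smul, tr_smul, tr_smul, h0, h1, map_mul]
      linear_combination (-algebraMap P L c) * h2
    | (j + 3) =>
      have h5 := ih (j + 2) (by omega)
      have h6 := ih j (by omega)
      have h7 : algebraMap R K θ ^ 3 = algebraMap P K c * algebraMap R K θ ^ 2 +
          algebraMap P K (a * d ^ 2) := by
        rw [hθ, map_mul, map_pow]
        linear_combination (algebraMap P K a * x * (algebraMap P K a * x ^ 2 + algebraMap P K c)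
          - algebraMap P K a * algebraMap P K d) * hr
      have h8 : y₀ * algebraMap R K θ ^ (j + 3) =
          algebraMap P K c * (y₀ * algebraMap R K θ ^ (j + 2)) +
            algebraMap P K (a * d ^ 2) * (y₀ * algebraMap R K θ ^ j) := by
        rw [pow_add _ j 3, h7]
        ring
      rw [h8, map_add, tr_smul, tr_smul, ← h5, ← h6, rh, map_add, map_mul, map_mul]

lemma nondeg (hI : IsCub L C a 0 c d x y₀ ω θ) (h0 : Algebra.trace L K y₀ = 0)
    (h1 : Algebra.trace L K (y₀ * x) = 0)
    (h2 : algebraMap P L a * Algebra.trace L K (y₀ * x ^ 2) = 1) (z : R)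
    (hz : ∀ y ∈ C, Algebra.trace L K (y * algebraMap R K z) = 0) : z = 0 := by
  obtain ⟨r0, r1, r2, rfl⟩ := hI.gen z
  have hinj := IsFractionRing.injective P L
  have hm : ∀ g0 g1 g2 : P, g0 * r2 + g1 * r1 + g2 * (r0 + c * r2) = 0 := by
    intro g0 g1 g2
    apply hinj
    rw [map_zero, ← tr_mat hI h0 h1 h2 g0 g1 g2 r0 r1 r2]
    exact hz _ ((hI.hC _).mpr ⟨g0, g1, g2, rfl⟩)
  have e1 := hm 1 0 0
  have e2 := hm 0 1 0
  have e3 := hm 0 0 1
  have f1 : r2 = 0 := by linear_combination e1
  have f2 : r1 = 0 := by linear_combination e2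
  have f3 : r0 = 0 := by
    rw [f1] at e3
    linear_combination e3
  rw [f1, f2, f3, map_zero, zero_smul, zero_smul, add_zero, add_zero]

theorem split_of (q : ℕ) (hq : 1 ≤ q) (hadd : ∀ u v : K, (u + v) ^ q = u ^ q + v ^ q)
    (T : P →+ P) (hT : ∀ r s : P, T (r ^ q * s) = r * T s)
    (hI : IsCub L C a 0 c d x y₀ ω θ)
    (hC : ∀ y : K, y ∈ C ↔ ∀ r : R, ∃ g : P,
      algebraMap P L g = Algebra.trace L K (y * algebraMap R K r))
    (h0 : Algebra.trace L K y₀ = 0) (h1 : Algebra.trace L K (y₀ * x) = 0)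
    (h2 : algebraMap P L a * Algebra.trace L K (y₀ * x ^ 2) = 1) (F : P)
    (hTx : ∀ g : P, algebraMap P L g = algebraMap P L (a ^ (q / 2) * F) *
      Algebra.trace L K (y₀ * x ^ q) → T g = 0)
    (hTθ : ∀ g : P, algebraMap P L g = algebraMap P L (a ^ (q / 2) * F) *
      Algebra.trace L K (y₀ * algebraMap R K θ ^ q) → T g = 1) :
    FSplits R q (algebraMap P R F) := by
  have hinj := IsFractionRing.injective P L
  have hy := hI.hy
  have hθ := hI.hθ
  rw [map_zero, zero_mul, add_zero] at hθ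
  have hy0 : y₀ ∈ C := (hI.hC _).mpr ⟨1, 0, 0, by simp⟩
  have hy1 : y₀ * x ∈ C := (hI.hC _).mpr ⟨0, 1, 0, by simp⟩
  have hs : ∀ (r : R) (y : K), y ∈ C → algebraMap R K r * y ∈ C := by
    intro r y h
    rw [← Algebra.smul_def]
    exact C.smul_mem r h
  have hPR : ∀ g : P, algebraMap P K g = algebraMap R K (algebraMap P R g) :=
    fun g => IsScalarTower.algebraMap_apply P R K g
  -- the three elements
  have hv1 : algebraMap P K a ^ (q / 2) * y₀ ∈ C := by
    rw [hPR, ← map_pow]
    exact hs _ _ hy0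
  have hvθ : algebraMap P K a ^ (q / 2) * y₀ * algebraMap R K θ ^ q ∈ C := by
    have : algebraMap P K a ^ (q / 2) * y₀ * algebraMap R K θ ^ q =
        algebraMap R K (algebraMap P R a ^ (q / 2) * θ ^ q) * y₀ := by
      rw [hPR, map_mul, map_pow, map_pow]
      ring
    rw [this]
    exact hs _ _ hy0
  have hvx : algebraMap P K a ^ (q / 2) * y₀ * x ^ q ∈ C := by
    have e1 : x ^ q = (x ^ 2) ^ (q / 2) * x ^ (q % 2) := by
      rw [← pow_mul, ← pow_add, Nat.div_add_mod]
    have e2 : algebraMap P K a * x ^ 2 = algebraMap R K (θ - algebraMap P R c) := by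
      rw [map_sub, hθ, ← hPR]
      ring
    have e3 : algebraMap P K a ^ (q / 2) * y₀ * x ^ q =
        algebraMap R K ((θ - algebraMap P R c) ^ (q / 2)) * (y₀ * x ^ (q % 2)) := by
      rw [e1, map_pow, ← e2, mul_pow]
      ring
    rw [e3]
    apply hs
    rcases Nat.mod_two_eq_zero_or_one q with h | h
    · rw [h, pow_zero, mul_one]
      exact hy0
    · rw [h, pow_one]
      exact hy1
  have H1 := (hC _).mp hv1
  have H2 := (hC _).mp hvx
  have H3 := (hC _).mp hvθ
  choose G1 hG1 using H1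
  choose G2 hG2 using H2
  choose G3 hG3 using H3
  have hA : ∀ (G : R → P) (y : K), (∀ r, algebraMap P L (G r) =
      Algebra.trace L K (y * algebraMap R K r)) → ∀ r s, G (r + s) = G r + G s := by
    intro G y hG r s
    apply hinj
    rw [map_add, hG, hG, hG, map_add, mul_add, map_add]
  have A1 := hA G1 _ hG1
  have A2 := hA G2 _ hG2
  have A3 := hA G3 _ hG3
  let φ : R →+ R := AddMonoidHom.mk' (fun r => algebraMap P R (T (G3 r) - c * T (G1 r)) +
    T (G2 r) • ω + T (G1 r) • θ) (by
      intro r s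
      simp only [A1, A2, A3, map_add, map_sub, map_mul, Algebra.smul_def]
      ring)
  have hφ : ∀ r, φ r = algebraMap P R (T (G3 r) - c * T (G1 r)) +
    T (G2 r) • ω + T (G1 r) • θ := fun r => rfl
  -- the formula for all of `C`
  have hB : ∀ y ∈ C, ∀ r : R, ∃ g : P, algebraMap P L g = Algebra.trace L K
      (algebraMap P K a ^ (q / 2) * y ^ q * (y₀ ^ (q - 1))⁻¹ * algebraMap R K r) ∧
      algebraMap P L (T g) = Algebra.trace L K (y * algebraMap R K (φ r)) := by
    intro y hyC r
    obtain ⟨g0, g1, g2, rfl⟩ := (hI.hC y).mp hyC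
    refine ⟨g0 ^ q * G1 r + g1 ^ q * G2 r + g2 ^ q * G3 r, ?_, ?_⟩
    · have e1 : algebraMap P K a ^ (q / 2) * (y₀ * (algebraMap P K g0 + algebraMap P K g1 * x +
          algebraMap P K g2 * algebraMap R K θ)) ^ q * (y₀ ^ (q - 1))⁻¹ * algebraMap R K r =
          algebraMap P K (g0 ^ q) * (algebraMap P K a ^ (q / 2) * y₀ * algebraMap R K r) +
          algebraMap P K (g1 ^ q) * (algebraMap P K a ^ (q / 2) * y₀ * x ^ q *
            algebraMap R K r) +
          algebraMap P K (g2 ^ q) * (algebraMap P K a ^ (q / 2) * y₀ * algebraMap R K θ ^ q *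
            algebraMap R K r) := by
        have e2 : y₀ ^ q * (y₀ ^ (q - 1))⁻¹ = y₀ := by
          obtain ⟨n, rfl⟩ : ∃ n, q = n + 1 := ⟨q - 1, by omega⟩
          rw [Nat.add_sub_cancel, pow_succ]
          field_simp
        rw [mul_pow, hadd, hadd, mul_pow, mul_pow, map_pow, map_pow, map_pow]
        linear_combination (algebraMap P K a ^ (q / 2) * algebraMap R K r *
          (algebraMap P K g0 ^ q + algebraMap P K g1 ^ q * x ^ q +
            algebraMap P K g2 ^ q * algebraMap R K θ ^ q)) * e2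
      rw [map_add, map_add, map_mul, map_mul, map_mul, hG1, hG2, hG3, ← tr_smul, ← tr_smul,
        ← tr_smul, ← map_add, ← map_add, e1]
    · rw [hφ, tr_mat hI h0 h1 h2]
      congr 1
      rw [map_add, map_add, hT, hT, hT]
      ring
  refine ⟨φ, ?_, ?_⟩
  · intro r s
    rw [← sub_eq_zero]
    apply nondeg hI h0 h1 h2
    intro y hyC
    rw [map_sub, mul_sub, map_sub, sub_eq_zero]
    obtain ⟨g, hg, hg'⟩ := hB y hyC (r ^ q * s)
    obtain ⟨g', hk, hk'⟩ := hB (algebraMap R K r * y) (hs r y hyC) s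
    have e1 : g = g' := by
      apply hinj
      rw [hg, hk]
      congr 1
      rw [map_mul, map_pow]
      ring
    rw [← hg', e1, hk']
    congr 1
    rw [map_mul]
    ring
  · have k1 : G1 (algebraMap P R F) = 0 := by
      apply hinj
      rw [hG1, map_zero, ← hPR]
      have : algebraMap P K a ^ (q / 2) * y₀ * algebraMap P K F =
          algebraMap P K (a ^ (q / 2) * F) * y₀ := by
        rw [map_mul, map_pow]
        ring
      rw [this, tr_smul, h0, mul_zero]
    have k2 : T (G2 (algebraMap P R F)) = 0 := by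
      apply hTx
      rw [hG2, ← hPR, ← tr_smul]
      congr 1
      rw [map_mul, map_pow]
      ring
    have k3 : T (G3 (algebraMap P R F)) = 1 := by
      apply hTθ
      rw [hG3, ← hPR, ← tr_smul]
      congr 1
      rw [map_mul, map_pow]
      ring
    rw [hφ, k1, k2, k3, map_zero, mul_zero, sub_zero, map_one, zero_smul, zero_smul, add_zero,
      add_zero]

end Gen


section PS

open MvPowerSeries

variable {k : Type} [Field k] {m : ℕ}

/-- all exponents of `X_0` are at most `j` -/
def Bd (j : ℕ) (g : MvPowerSeries (Fin (m + 3)) k) : Prop := ∀ s, coeff s g ≠ 0 → s 0 ≤ j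

/-- all exponents of `X_0` are at least `j` -/
def Lo (j : ℕ) (g : MvPowerSeries (Fin (m + 3)) k) : Prop := ∀ s, coeff s g ≠ 0 → j ≤ s 0

lemma Bd.mono {i j : ℕ} {g : MvPowerSeries (Fin (m + 3)) k} (h : Bd i g) (hij : i ≤ j) : Bd j g :=
  fun s hs => (h s hs).trans hij

lemma exists_of_mul {g h : MvPowerSeries (Fin (m + 3)) k} {s : Fin (m + 3) →₀ ℕ}
    (hs : coeff s (g * h) ≠ 0) : ∃ u v, u + v = s ∧ coeff u g ≠ 0 ∧ coeff v h ≠ 0 := by
  classical
  rw [coeff_mul] at hs
  obtain ⟨⟨u, v⟩, h1, h2⟩ := Finset.exists_ne_zero_of_sum_ne_zero hs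
  exact ⟨u, v, Finset.HasAntidiagonal.mem_antidiagonal.mp h1, left_ne_zero_of_mul h2, right_ne_zero_of_mul h2⟩

lemma Bd.mul {i j : ℕ} {g h : MvPowerSeries (Fin (m + 3)) k} (hg : Bd i g) (hh : Bd j h) :
    Bd (i + j) (g * h) := by
  intro s hs
  obtain ⟨u, v, rfl, h1, h2⟩ := exists_of_mul hs
  rw [Finsupp.add_apply]
  exact add_le_add (hg u h1) (hh v h2)

lemma Lo.mul {i j : ℕ} {g h : MvPowerSeries (Fin (m + 3)) k} (hg : Lo i g) (hh : Lo j h) :
    Lo (i + j) (g * h) := by
  intro s hs
  obtain ⟨u, v, rfl, h1, h2⟩ := exists_of_mul hs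
  rw [Finsupp.add_apply]
  exact add_le_add (hg u h1) (hh v h2)

lemma Bd.add {j : ℕ} {g h : MvPowerSeries (Fin (m + 3)) k} (hg : Bd j g) (hh : Bd j h) :
    Bd j (g + h) := by
  intro s hs
  by_cases h1 : coeff s g = 0
  · apply hh
    intro h2
    apply hs
    rw [map_add, h1, h2, add_zero]
  · exact hg s h1

lemma Bd.neg {j : ℕ} {g : MvPowerSeries (Fin (m + 3)) k} (hg : Bd j g) : Bd j (-g) := by
  intro s hs
  apply hg
  intro h
  apply hs
  rw [map_neg, h, neg_zero]

lemma Bd.sub {j : ℕ} {g h : MvPowerSeries (Fin (m + 3)) k} (hg : Bd j g) (hh : Bd j h) :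
    Bd j (g - h) := by
  rw [sub_eq_add_neg]
  exact hg.add hh.neg

lemma Bd_zero (j : ℕ) : Bd j (0 : MvPowerSeries (Fin (m + 3)) k) := by
  intro s hs
  exact absurd (map_zero _) hs

lemma Bd_one : Bd 0 (1 : MvPowerSeries (Fin (m + 3)) k) := by
  classical
  intro s hs
  rw [coeff_one] at hs
  have h : s = 0 := by
    by_contra h
    exact hs (if_neg h)
  rw [h]
  exact le_rfl

lemma Bd_X0_pow (j : ℕ) : Bd j (X 0 ^ j : MvPowerSeries (Fin (m + 3)) k) := by
  classical
  intro s hs
  rw [coeff_X_pow] at hs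
  have h : s = Finsupp.single 0 j := by
    by_contra h
    exact hs (if_neg h)
  rw [h, Finsupp.single_eq_same]

lemma Lo_X0_pow (j : ℕ) : Lo j (X 0 ^ j : MvPowerSeries (Fin (m + 3)) k) := by
  classical
  intro s hs
  rw [coeff_X_pow] at hs
  have h : s = Finsupp.single 0 j := by
    by_contra h
    exact hs (if_neg h)
  rw [h, Finsupp.single_eq_same]

lemma Lo_zero (g : MvPowerSeries (Fin (m + 3)) k) : Lo 0 g := fun _ _ => Nat.zero_le _

lemma Bd_X_pow {i : Fin (m + 3)} (hi : i ≠ 0) (j : ℕ) :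
    Bd 0 (X i ^ j : MvPowerSeries (Fin (m + 3)) k) := by
  classical
  intro s hs
  rw [coeff_X_pow] at hs
  have h : s = Finsupp.single i j := by
    by_contra h
    exact hs (if_neg h)
  rw [h, Finsupp.single_eq_of_ne hi.symm]

lemma Bd_prod (j : ℕ) : Bd 0 (∏ i : Fin m, X (i.addNat 3) ^ j : MvPowerSeries (Fin (m + 3)) k) := by
  classical
  induction (Finset.univ : Finset (Fin m)) using Finset.induction_on with
  | empty => rw [Finset.prod_empty]; exact Bd_one
  | insert i s hi ih =>
    rw [Finset.prod_insert hi]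
    refine (Bd_X_pow ?_ j).mul ih
    intro h
    have := congrArg Fin.val h
    simp at this

omit [Field k] in
lemma two_ne : (2 : Fin (m + 3)) ≠ 0 := by
  intro h
  have h1 := congrArg Fin.val h
  have h2 : ((2 : Fin (m + 3)) : ℕ) = 2 := Fin.val_two
  rw [h2] at h1
  simp at h1

lemma Bd_sg (j : ℕ) : Bd j (sg (X 0) (X 1) (X 2) j : MvPowerSeries (Fin (m + 3)) k) := by
  have a1 : Bd 1 (X 0 : MvPowerSeries (Fin (m + 3)) k) := by
    have := Bd_X0_pow (k := k) (m := m) 1
    rwa [pow_one] at this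
  have c1 : Bd 0 (X 1 : MvPowerSeries (Fin (m + 3)) k) := by
    have := Bd_X_pow (k := k) (m := m) (i := 1) (by simp) 1
    rwa [pow_one] at this
  have d1 : Bd 0 (X 2 : MvPowerSeries (Fin (m + 3)) k) := by
    have := Bd_X_pow (k := k) (m := m) (i := 2) two_ne 1
    rwa [pow_one] at this
  induction j using Nat.strong_induction_on with
  | _ j ih =>
    match j with
    | 0 => rw [sg]; exact Bd_one
    | 1 => rw [sg]; exact Bd_zero 1
    | 2 => rw [sg]; exact ((a1.mul c1).neg).mono (by omega)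
    | (j + 3) =>
      rw [sg]
      have h1 := ih (j + 1) (by omega)
      have h2 := ih j (by omega)
      exact (((a1.mul c1).mul h1).neg.mono (by omega)).sub
        ((((Bd_X0_pow 2).mul d1).mul h2).mono (by omega))

lemma Bd_rh (j : ℕ) : Bd (j - 1) (rh (X 0) (X 1) (X 2) j : MvPowerSeries (Fin (m + 3)) k) := by
  have a1 : Bd 1 (X 0 : MvPowerSeries (Fin (m + 3)) k) := by
    have := Bd_X0_pow (k := k) (m := m) 1
    rwa [pow_one] at this
  have c1 : Bd 0 (X 1 : MvPowerSeries (Fin (m + 3)) k) := by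
    have := Bd_X_pow (k := k) (m := m) (i := 1) (by simp) 1
    rwa [pow_one] at this
  have d1 : Bd 0 (X 2 ^ 2 : MvPowerSeries (Fin (m + 3)) k) := by
    exact Bd_X_pow (k := k) (m := m) (i := 2) two_ne 2
  induction j using Nat.strong_induction_on with
  | _ j ih =>
    match j with
    | 0 => rw [rh]; exact Bd_zero _
    | 1 => rw [rh]; exact Bd_one
    | 2 => rw [rh]; exact c1.mono (by omega)
    | (j + 3) =>
      rw [rh]
      have h1 := ih (j + 2) (by omega)
      have h2 := ih j (by omega)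
      exact ((c1.mul h1).mono (by omega)).add (((a1.mul d1).mul h2).mono (by omega))

lemma rh_eq {P : Type} [CommRing P] (a c d : P) (j : ℕ) :
    ∃ E, rh a c d (j + 1) = c ^ j + a * E := by
  induction j using Nat.strong_induction_on with
  | _ j ih =>
    match j with
    | 0 => exact ⟨0, by simp [rh]⟩
    | 1 => exact ⟨0, by simp [rh]⟩
    | (j + 2) =>
      obtain ⟨E, hE⟩ := ih (j + 1) (by omega)
      refine ⟨c * E + d ^ 2 * rh a c d j, ?_⟩
      rw [show j + 2 + 1 = j + 3 from rfl, rh, show j + 2 = j + 1 + 1 from rfl, hE]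
      ring

lemma prod_X (n : ℕ) (s : Finset (Fin (m + 3))) :
    (∏ i ∈ s, X i ^ n : MvPowerSeries (Fin (m + 3)) k) =
      monomial (∑ i ∈ s, Finsupp.single i n) 1 := by
  classical
  induction s using Finset.induction_on with
  | empty => rw [Finset.prod_empty, Finset.sum_empty]; rfl
  | insert i s hi ih =>
    rw [Finset.prod_insert hi, Finset.sum_insert hi, ih, X_pow_eq, monomial_mul_monomial, one_mul]

end PS

open Pool.Agent.H261.FT867 MvPowerSeries in
theorem exf : S_EXF := by
  intro p _ k _ _ _ m e R L K _ _ _ _ _ _ _ _ _ _ _ _ _ _ _ _ _ C x y₀ ω θ hI hC h0 h1 h2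
  classical
  have hq : 0 < p ^ e := pow_pos (Fact.out : p.Prime).pos _
  let top : Fin (m + 3) → Fin (p ^ e) := fun _ => ⟨p ^ e - 1, Nat.sub_lt hq one_pos⟩
  have hinj : Function.Injective (algebraMap (MvPowerSeries (Fin (m + 3)) k) L) :=
    IsFractionRing.injective _ _
  have hinjK : Function.Injective (algebraMap (MvPowerSeries (Fin (m + 3)) k) K) := by
    have : (algebraMap (MvPowerSeries (Fin (m + 3)) k) K : _ → K) =
        algebraMap L K ∘ algebraMap (MvPowerSeries (Fin (m + 3)) k) L := by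
      funext g
      exact IsScalarTower.algebraMap_apply _ L K g
    rw [this]
    exact (algebraMap L K).injective.comp hinj
  have hC' : Function.Injective (algebraMap k (MvPowerSeries (Fin (m + 3)) k)) :=
    (algebraMap k (MvPowerSeries (Fin (m + 3)) k)).injective
  have : CharP (MvPowerSeries (Fin (m + 3)) k) p := charP_of_injective_algebraMap hC' p
  have : CharP K p := charP_of_injective_algebraMap hinjK p
  have hTz : ∀ g : MvPowerSeries (Fin (m + 3)) k,
      (∀ s, coeff s g ≠ 0 → s 0 % p ^ e ≠ p ^ e - 1) →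
      cmp p k (m + 3) e (ex (m + 3) top) g = 0 := by
    intro g hg
    ext b
    rw [coeff_cmp]
    have : coeff (p ^ e • b + ex (m + 3) top) g = 0 := by
      by_contra h
      apply hg _ h
      rw [Finsupp.add_apply, Finsupp.smul_apply, smul_eq_mul, ex_apply, Nat.mul_add_mod]
      exact Nat.mod_eq_of_lt (Nat.sub_lt hq one_pos)
    rw [this, map_zero, map_zero]
  have hexp : X 0 ^ (p ^ e / 2) * (X 0 ^ ((p ^ e - 1) / 2) * X 2 ^ (p ^ e - 1) *
      ∏ i : Fin m, X (i.addNat 3) ^ (p ^ e - 1)) = X 0 ^ (p ^ e - 1) * (X 2 ^ (p ^ e - 1) *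
      (∏ i : Fin m, X (i.addNat 3) ^ (p ^ e - 1)) : MvPowerSeries (Fin (m + 3)) k) := by
    have h3 : (X 0 ^ (p ^ e - 1) : MvPowerSeries (Fin (m + 3)) k) =
        X 0 ^ (p ^ e / 2) * X 0 ^ ((p ^ e - 1) / 2) := by
      rw [← pow_add]
      congr 1
      omega
    rw [h3]
    simp only [mul_assoc]
  have hB0 : Bd 0 (X 2 ^ (p ^ e - 1) * (∏ i : Fin m, X (i.addNat 3) ^ (p ^ e - 1)) :
      MvPowerSeries (Fin (m + 3)) k) :=
    (Bd_X_pow two_ne _).mul (Bd_prod _)
  apply split_of (p ^ e) hq (fun u v => add_pow_char_pow u v p e)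
    (cmp p k (m + 3) e (ex (m + 3) top)) (cmp_cartier p k (m + 3) e top) hI hC h0 h1 h2
  · intro g hg
    rw [hexp] at hg
    rcases Nat.lt_or_ge (p ^ e) 2 with h | h
    · have hq1 : p ^ e = 1 := by omega
      have hg0 : g = 0 := by
        apply hinj
        rw [hg, hq1, pow_one, h1, mul_zero, map_zero]
      rw [hg0, map_zero]
    · obtain ⟨j, hj⟩ : ∃ j, p ^ e = j + 2 := ⟨p ^ e - 2, by omega⟩
      have h4 := sg_spec hI h0 h1 h2 j
      have hg0 : g = X 2 ^ (p ^ e - 1) * (∏ i : Fin m, X (i.addNat 3) ^ (p ^ e - 1)) *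
          sg (X 0) (X 1) (X 2) j := by
        apply hinj
        have e0 : p ^ e - 1 = j + 1 := by omega
        rw [hg, map_mul _ _ (sg (X 0) (X 1) (X 2) j), h4, map_mul _ (X 0 ^ (p ^ e - 1)) _, map_pow,
          e0, hj]
        ring
      rw [hg0]
      apply hTz
      intro s hs
      have h5 := (hB0.mul (Bd_sg j)) s hs
      rw [Nat.mod_eq_of_lt (by omega)]
      omega
  · intro g hg
    rw [hexp, ← rh_spec hI h0 h1 h2, ← map_mul] at hg
    have hg0 := hinj hg
    obtain ⟨j, hj⟩ : ∃ j, p ^ e = j + 1 := ⟨p ^ e - 1, by omega⟩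
    have hj' : p ^ e - 1 = j := by omega
    obtain ⟨E, hE⟩ := rh_eq (X 0 : MvPowerSeries (Fin (m + 3)) k) (X 1) (X 2) j
    have hB1 := (((Bd_X0_pow (k := k) (m := m) (p ^ e - 1)).mul hB0).mul (Bd_rh (p ^ e)))
    rw [← hg0] at hB1
    set Z : MvPowerSeries (Fin (m + 3)) k :=
      X 2 ^ (p ^ e - 1) * (∏ i : Fin m, X (i.addNat 3) ^ (p ^ e - 1)) with hZ
    have e1 : g = X 0 ^ j * (X 1 ^ j * Z) + X 0 ^ (j + 1) * (Z * E) := by
      rw [hg0, hj', hj, hE]
      ring
    have e2 : cmp p k (m + 3) e (ex (m + 3) top) (X 0 ^ (j + 1) * (Z * E)) = 0 := by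
      apply hTz
      intro s hs
      have l1 := ((Lo_X0_pow (k := k) (m := m) (j + 1)).mul (Lo_zero (Z * E))) s hs
      have l2 : Bd (2 * j) (X 0 ^ (j + 1) * (Z * E)) := by
        have e3 : X 0 ^ (j + 1) * (Z * E) = g - X 0 ^ j * (X 1 ^ j * Z) := by
          rw [e1]
          ring
        rw [e3]
        apply Bd.sub
        · exact hB1.mono (by omega)
        · exact (((Bd_X0_pow j).mul ((Bd_X_pow (by simp) j).mul hB0))).mono (by omega)
      have l3 := l2 s hs
      have l4 : s 0 % p ^ e = s 0 - p ^ e := by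
        rw [Nat.mod_eq_sub_mod (by omega), Nat.mod_eq_of_lt (by omega)]
      omega
    have e4 : X 0 ^ j * (X 1 ^ j * Z) = monomial (ex (m + 3) top) (1 : k) := by
      have e5 : (∏ i : Fin (m + 3), X i ^ (p ^ e - 1) : MvPowerSeries (Fin (m + 3)) k) =
          X 0 ^ j * (X 1 ^ j * Z) := by
        rw [Fin.prod_univ_succ, Fin.prod_univ_succ, Fin.prod_univ_succ, hj', hZ, hj']
        rfl
      rw [← e5, prod_X]
      congr 2
      ext i
      rw [ex_apply, Finsupp.finsetSum_apply, Finset.sum_eq_single i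
        (fun b _ hb => Finsupp.single_eq_of_ne hb.symm) (fun h => absurd (Finset.mem_univ _) h),
        Finsupp.single_eq_same]
    have e6 : cmp p k (m + 3) e (ex (m + 3) top) (monomial (ex (m + 3) top) (1 : k)) = 1 := by
      ext b
      rw [coeff_cmp, coeff_monomial, coeff_one]
      by_cases hb : b = 0
      · rw [if_pos hb, if_pos (by rw [hb, smul_zero, zero_add]), map_one]
      · rw [if_neg hb, if_neg, map_zero]
        intro h
        apply hb
        have h7 : p ^ e • b = 0 := by
          have := h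
          rwa [add_eq_right] at this
        ext i
        have h8 := DFunLike.congr_fun h7 i
        rw [Finsupp.smul_apply, smul_eq_mul, Finsupp.zero_apply] at h8
        rcases Nat.mul_eq_zero.mp h8 with h9 | h9
        · omega
        · exact h9
    rw [e1, map_add, e2, add_zero, e4, e6]

end Pool.Agent.H400.FT867EXF
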