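import Pool.Agent.H867.FT.Stm

/-!
# MON: splitting of monomials in toric rings (part of project FT, helper867, MP_7dd379_ag)
-/

set_option autoImplicit false

namespace Pool.Agent.H400.FT

open Pool.Agent.H867.FT

/-- a retraction of a field extension -/
theorem exists_retraction {K L : Type} [Field K] [Field L] (σ : K →+* L) :
    ∃ ρ : L →+ K, (∀ (c : K) (s : L), ρ (σ c * s) = c * ρ s) ∧ ρ 1 = 1 := by
  let _ := σ.toAlgebra
  obtain ⟨g, hg⟩ := LinearMap.exists_leftInverse_of_injective (Algebra.linearMap K L)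
    (LinearMap.ker_eq_bot.2 (algebraMap K L).injective)
  refine ⟨g.toAddMonoidHom, fun c s => ?_, ?_⟩
  · change g (σ c * s) = c * g s
    have h1 : σ c * s = c • s := (Algebra.smul_def c s).symm
    rw [h1, map_smul, smul_eq_mul]
  · change g 1 = 1
    have h1 := LinearMap.congr_fun hg (1 : K)
    rw [LinearMap.comp_apply, Algebra.linearMap_apply, map_one] at h1
    exact h1

section

variable {K : Type} [Field K] {d n : ℕ} {C : Cone d n}

open Classical in
/-- the splitting -/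
noncomputable def phi (q : ℕ) (u : C.S) (ρ : K →+ K) : C.Ring K →+ C.Ring K :=
  (Finsupp.liftAddHom fun a : C.S =>
    if h : ∃ b : C.S, a = u + q • b then
      (AddMonoidAlgebra.singleAddHom (R := K) h.choose).comp ρ else 0).comp
    (AddMonoidAlgebra.coeffAddEquiv (R := K) (M := C.S)).toAddMonoidHom

open Classical in
theorem phi_single (q : ℕ) (u : C.S) (ρ : K →+ K) (a : C.S) (c : K) :
    phi q u ρ (AddMonoidAlgebra.single a c) =
      if h : ∃ b : C.S, a = u + q • b then AddMonoidAlgebra.single h.choose (ρ c) else 0 := by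
  unfold phi
  rw [AddMonoidHom.comp_apply]
  change (Finsupp.liftAddHom _) (Finsupp.single a c) = _
  rw [Finsupp.liftAddHom_apply_single]
  split_ifs with h
  · rfl
  · rfl

theorem coe_ns (q : ℕ) (b : C.S) : ((q • b : C.S) : Fin d → ℤ) = q • (b : Fin d → ℤ) := rfl

theorem coe_ns_apply (q : ℕ) (b : C.S) (j : Fin d) :
    ((q • b : C.S) : Fin d → ℤ) j = q * (b : Fin d → ℤ) j := by
  rw [coe_ns, Pi.smul_apply, nsmul_eq_mul]

theorem dot_ns (q : ℕ) (b : C.S) (x : Fin d → ℤ) :
    x ⬝ᵥ ((q • b : C.S) : Fin d → ℤ) = q * (x ⬝ᵥ (b : Fin d → ℤ)) := by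
  rw [coe_ns, dotProduct_smul, nsmul_eq_mul]

theorem inj {q : ℕ} (hq : 0 < q) {u b b' : C.S} (h : u + q • b = u + q • b') : b = b' := by
  refine Subtype.ext (funext fun j => ?_)
  have h1 := congrArg (fun x : C.S => (x : Fin d → ℤ) j) h
  simp only [AddSubmonoid.coe_add, coe_ns_apply, Pi.add_apply, add_right_inj] at h1
  have hq' : (q : ℤ) ≠ 0 := by exact_mod_cast hq.ne'
  exact mul_left_cancel₀ hq' h1

theorem phi_pos {q : ℕ} (hq : 0 < q) (u : C.S) (ρ : K →+ K) (b : C.S) (c : K) :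
    phi q u ρ (AddMonoidAlgebra.single (u + q • b) c) = AddMonoidAlgebra.single b (ρ c) := by
  rw [phi_single]
  have h : ∃ b' : C.S, u + q • b = u + q • b' := ⟨b, rfl⟩
  rw [dif_pos h, ← inj hq h.choose_spec]

theorem phi_neg {q : ℕ} (u : C.S) (ρ : K →+ K) {a : C.S} (c : K)
    (h : ¬ ∃ b : C.S, a = u + q • b) :
    phi q u ρ (AddMonoidAlgebra.single a c) = 0 := by
  rw [phi_single, dif_neg h]

theorem div_mem {q : ℕ} (hq : 0 < q) {u : C.S}
    (hu : ∀ i, C.v i ⬝ᵥ (u : Fin d → ℤ) ≤ (q : ℤ) - 1) {a b b' : C.S}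
    (h : a + q • b' = u + q • b) : ∃ b₀ : C.S, a = u + q • b₀ ∧ b = b₀ + b' := by
  have h1 : ∀ i, C.v i ⬝ᵥ (a : Fin d → ℤ) + q * (C.v i ⬝ᵥ (b' : Fin d → ℤ)) =
      C.v i ⬝ᵥ (u : Fin d → ℤ) + q * (C.v i ⬝ᵥ (b : Fin d → ℤ)) := by
    intro i
    have h2 := congrArg (fun x : C.S => C.v i ⬝ᵥ (x : Fin d → ℤ)) h
    simp only [AddSubmonoid.coe_add, dotProduct_add, dot_ns] at h2
    exact h2
  have hmem : ((b : Fin d → ℤ) - b') ∈ C.S := by
    rw [Cone.mem_S]
    intro i
    rw [dotProduct_sub]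
    by_contra hcon
    push Not at hcon
    have h3 := h1 i
    have h4 := hu i
    have h5 : 0 ≤ C.v i ⬝ᵥ (a : Fin d → ℤ) := a.2 i
    have h6 : (0 : ℤ) < q := by exact_mod_cast hq
    have h7 : C.v i ⬝ᵥ (b : Fin d → ℤ) - C.v i ⬝ᵥ (b' : Fin d → ℤ) ≤ -1 := by omega
    nlinarith
  refine ⟨⟨_, hmem⟩, ?_, ?_⟩
  · refine Subtype.ext (funext fun j => ?_)
    have h2 := congrArg (fun x : C.S => (x : Fin d → ℤ) j) h
    simp only [AddSubmonoid.coe_add, coe_ns_apply, Pi.add_apply] at h2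
    simp only [AddSubmonoid.coe_add, coe_ns_apply, Pi.add_apply, Pi.sub_apply]
    linarith
  · refine Subtype.ext (funext fun j => ?_)
    simp only [AddSubmonoid.coe_add, Pi.add_apply, Pi.sub_apply]
    ring

end

/-- **MON.** -/
theorem mon : S_MON := by
  intro p _ K _ _ d n C e u hu
  set q : ℕ := p ^ e with hqdef
  have hp : p.Prime := Fact.out
  have hq : 0 < q := pow_pos hp.pos e
  have hu' : ∀ i, C.v i ⬝ᵥ (u : Fin d → ℤ) ≤ (q : ℤ) - 1 := by
    intro i
    rw [hqdef]
    push_cast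
    exact hu i
  obtain ⟨ρ, hρ, hρ1⟩ := exists_retraction (iterateFrobenius K p e)
  have hρ' : ∀ c s : K, ρ (c ^ q * s) = c * ρ s := by
    intro c s
    rw [← hρ, iterateFrobenius_def]
  have hchar : CharP (C.Ring K) p :=
    charP_of_injective_algebraMap (algebraMap K (C.Ring K)).injective p
  refine ⟨phi q u ρ, ?_, ?_⟩
  · intro r s
    refine AddMonoidAlgebra.induction_linear r ?_ ?_ ?_
    · rw [zero_pow hq.ne', zero_mul, zero_mul, map_zero]
    · intro x y hx hy
      rw [hqdef, add_pow_char_pow, ← hqdef, add_mul, map_add, hx, hy, add_mul]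
    · intro b c
      refine AddMonoidAlgebra.induction_linear s ?_ ?_ ?_
      · rw [mul_zero, map_zero, mul_zero]
      · intro x y hx hy
        rw [mul_add, map_add, map_add, hx, hy, mul_add]
      · intro a t
        rw [AddMonoidAlgebra.single_pow, AddMonoidAlgebra.single_mul_single]
        by_cases h : ∃ b₀ : C.S, a = u + q • b₀
        · obtain ⟨b₀, rfl⟩ := h
          have h1 : q • b + (u + q • b₀) = u + q • (b + b₀) := by
            rw [smul_add]
            abel
          rw [h1, phi_pos hq, phi_pos hq, AddMonoidAlgebra.single_mul_single, hρ']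
        · have h1 : ¬ ∃ b₁ : C.S, q • b + a = u + q • b₁ := by
            rintro ⟨b₁, hb₁⟩
            rw [add_comm] at hb₁
            obtain ⟨b₀, hb₀, -⟩ := div_mem hq hu' hb₁
            exact h ⟨b₀, hb₀⟩
          rw [phi_neg u ρ _ h1, phi_neg u ρ _ h, mul_zero]
  · have h1 := phi_pos hq u ρ 0 1
    rw [smul_zero, add_zero, hρ1] at h1
    rw [h1]
    rfl

end Pool.Agent.H400.FT
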