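import Mathlib
import Pool.Graph.R_seed8.W374.FbsBU
import Pool.Graph.R_seed8.W374.FbsBase
import Pool.Graph.R_seed8.W374.FbsCl
import Pool.Graph.R_seed8.W374.FbsTA
import Pool.Graph.R_seed8.W374.FbsStepSys
import Pool.Graph.R_seed8.W374.FbsStepW
import Pool.Graph.R_seed8.W374.FbsShort
import Pool.Graph.R_seed8.W366.FB.Core
import Pool.Graph.R_seed8.W366.FB.Long2
import Pool.Graph.R_seed8.W435.FB.Assembly
import Pool.Graph.R_seed8.W435.FB.TR6
import Pool.Graph.R_seed8.W435.FB.SA
import Pool.Graph.R_seed8.W435.FB.SR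
import Pool.Graph.R_seed8.W435.FB.Data
import Pool.Graph.R_seed8.W435.FB.DataR
import Pool.Graph.R_seed8.W435.FB.Trans
import Pool.Graph.R_seed8.W435.FB.CritSP
import Pool.Graph.R_seed8.W435.FB.ReesP
import Pool.Graph.R_seed8.W435.FB.Link
import Pool.Graph.R_seed8.W435.FB.Comp

/-!
# Finite basability of completely 0-simple semigroups over the two-element group

Built on the matrix criterion of the library run `R_seed8` (`finBased_iff`).
-/

set_option autoImplicit false

namespace Pool.Agent.H400.FbTwo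

open Pool.Agent.W435.FB
open Pool.Agent

/-- the library criterion, with all its ingredients filled in -/
theorem crit_iff {A I L : Type} [AddCommGroup A] [Finite A] [Finite L] [Nonempty I]
    (P : L → I → Option A) (hP : Reg P) : FinBased (ARM A I L P) ↔ Crit P :=
  W435.FB.finBased_iff W374.FBS.ta (W435.FB.tr W374.FBS.ta W374.FBS.cl) W435.FB.schA W435.FB.schR
    W435.FB.data W435.FB.dataNR W435.FB.dataR W435.FB.transfer W435.FB.finBasedCrit
    (W435.FB.poset W374.FBS.posetBase W374.FBS.stepSys W374.FBS.stepW W374.FBS.bu)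
    W374.FBS.short W366.FB.core W366.FB.long P hP

theorem critS_iff {S : Type} [Semigroup S] [Finite S] (z : S) (hz : IsC0 z) :
    FinBased S ↔ CritS z :=
  W435.FB.finBased_iff_critS W374.FBS.ta (W435.FB.tr W374.FBS.ta W374.FBS.cl) W435.FB.schA
    W435.FB.schR W435.FB.data W435.FB.dataNR W435.FB.dataR W435.FB.transfer W435.FB.finBasedCrit
    (W435.FB.poset W374.FBS.posetBase W374.FBS.stepSys W374.FBS.stepW W374.FBS.bu)
    W374.FBS.short W366.FB.core W366.FB.long W435.FB.rees W435.FB.critS z hz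

/-- the maximal subgroup with identity `e`: the units of the local monoid `e S e` -/
def HGrp {S : Type} [Mul S] (e : S) : Set S :=
  {x | e * x = x ∧ x * e = x ∧ ∃ y, e * y = y ∧ y * e = y ∧ x * y = e ∧ y * x = e}

/-- completely 0-simple with zero `z`, all maximal subgroups with nonzero identity element having
exactly two elements -/
def IsC0Two {S : Type} [Semigroup S] (z : S) : Prop :=
  (∀ x : S, z * x = z ∧ x * z = z) ∧ (∃ x y : S, x * y ≠ z) ∧
  (∀ J : Set S, z ∈ J → (∀ x ∈ J, ∀ s : S, s * x ∈ J ∧ x * s ∈ J) → J = {z} ∨ J = Set.univ) ∧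
  (∃ e : S, e ≠ z ∧ e * e = e ∧
    ∀ f : S, f ≠ z → f * f = f → e * f = f → f * e = f → f = e) ∧
  (∀ e : S, e ≠ z → e * e = e → (HGrp e).ncard = 2)

theorem zs_of4 {S : Type} [Semigroup S] {z : S}
    (hz : ∀ x : S, z * x = z ∧ x * z = z) (hne : ∃ x y : S, x * y ≠ z)
    (hI : ∀ J : Set S, z ∈ J → (∀ x ∈ J, ∀ s : S, s * x ∈ J ∧ x * s ∈ J) →
      J = {z} ∨ J = Set.univ) : Pool.Agent.H502.Bk.ZS z := by
  obtain ⟨p, q, hpq⟩ := hne
  have hZS : Pool.Agent.H502.Bk.ZeroSimple S := by
    refine ⟨z, hz, ⟨p, q, hpq⟩, fun J hne hJ => hI J ?_ hJ⟩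
    obtain ⟨a, ha⟩ := hne
    have := (hJ a ha z).1
    rwa [(hz a).1] at this
  obtain ⟨z', hz'⟩ := Pool.Agent.H502.Bk.zs_of_zeroSimple hZS
  have : z = z' := by
    have h1 := (hz z').1
    have h2 := (hz'.1 z).2
    rw [h1] at h2
    exact h2
  rw [this]; exact hz'

/-- nonzero elements of a local monoid of a finite 0-simple semigroup are units -/
theorem mem_HGrp {S : Type} [Semigroup S] [Finite S] {z : S}
    (h : Pool.Agent.H502.Bk.ZS z) {e : S} (he : e * e = e) (hez : e ≠ z) {x : S} (hx : x ≠ z)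
    (h1 : e * x = x) (h2 : x * e = x) : x ∈ HGrp e := by
  obtain ⟨grp, hmul⟩ := Pool.Agent.H502.Bk.J11713.rc_group h he hez
  set x' : {x : S // x ≠ z ∧ e * x = x ∧ x * e = x} := ⟨x, hx, h1, h2⟩ with hx'
  have hone : (1 : {x : S // x ≠ z ∧ e * x = x ∧ x * e = x}).1 = e := by
    set E : {x : S // x ≠ z ∧ e * x = x ∧ x * e = x} := ⟨e, hez, he, he⟩ with hE
    have : E * E = E := Subtype.ext (by rw [hmul]; exact he)
    have h3 : E = 1 := by simpa using this
    rw [← h3]
  refine ⟨h1, h2, (x'⁻¹).1, (x'⁻¹).2.2.1, (x'⁻¹).2.2.2, ?_, ?_⟩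
  · have : (x' * x'⁻¹).1 = x * (x'⁻¹).1 := hmul _ _
    rw [mul_inv_cancel, hone] at this
    exact this.symm
  · have : (x'⁻¹ * x').1 = (x'⁻¹).1 * x := hmul _ _
    rw [inv_mul_cancel, hone] at this
    exact this.symm

theorem self_mem_HGrp {S : Type} [Semigroup S] {e : S} (he : e * e = e) : e ∈ HGrp e :=
  ⟨he, he, e, he, he, he, he⟩

theorem isC0_of_two {S : Type} [Semigroup S] [Finite S] {z : S} (h : IsC0Two z) : IsC0 z := by
  obtain ⟨h1, h2, h3, h4, h5⟩ := h
  have hZ := zs_of4 h1 h2 h3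
  refine ⟨h1, h2, h3, h4, ?_⟩
  intro e hez he a b
  obtain ⟨p, q, hpq, hH⟩ := Set.ncard_eq_two.1 (h5 e hez he)
  have hmem : ∀ c : S, e * c * e = z ∨ e * c * e ∈ HGrp e := by
    intro c
    by_cases hc : e * c * e = z
    · exact Or.inl hc
    · right
      apply mem_HGrp hZ he hez hc
      · rw [← mul_assoc, ← mul_assoc, he]
      · rw [mul_assoc, he]
  have hE := self_mem_HGrp he
  rw [hH] at hE hmem
  -- units: `e` and another element
  have hunit : ∀ x ∈ HGrp e, e * x = x ∧ x * e = x := fun x hx => ⟨hx.1, hx.2.1⟩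
  rw [hH] at hunit
  have hcomm : ∀ x y : S, (x = p ∨ x = q) → (y = p ∨ y = q) → x * y = y * x := by
    have hpe := hunit p (by simp)
    have hqe := hunit q (by simp)
    have key : p * q = q * p := by
      rcases hE with hE | hE
      · rw [hE] at hqe; rw [hqe.1, hqe.2]
      · rw [Set.mem_singleton_iff] at hE; rw [hE] at hpe; rw [hpe.1, hpe.2]
    rintro x y (rfl | rfl) (rfl | rfl)
    · rfl
    · exact key
    · exact key.symm
    · rfl
  rcases hmem a with ha | ha
  · rw [ha, (h1 _).1, (h1 _).2]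
  rcases hmem b with hb | hb
  · rw [hb, (h1 _).1, (h1 _).2]
  exact hcomm _ _ ha hb

/-- the membership in a maximal subgroup, read off from the table -/
def GT (n : ℕ) (t : List (List ℕ)) (e a : ℕ) : Prop :=
  tb t e a = a ∧ tb t a e = a ∧ ∃ b < n, tb t e b = b ∧ tb t b e = b ∧ tb t a b = e ∧ tb t b a = e

/-- all maximal subgroups with nonzero identity element have exactly two elements -/
def TwoTab (n : ℕ) (t : List (List ℕ)) : Prop :=
  ∃ z < n, (∀ x < n, tb t z x = z ∧ tb t x z = z) ∧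
    ∀ e < n, e ≠ z → tb t e e = e →
      ∃ a < n, a ≠ e ∧ GT n t e a ∧ ∀ b < n, GT n t e b → (b = e ∨ b = a)

theorem comp_two : ComputablePred fun p : ℕ × List (List ℕ) =>
    PredTab p.1 p.2 ∧ TwoTab p.1 p.2 := by
  open CompAux in
  apply PrimrecPred.computablePred
  unfold PredTab TwoTab GT
  repeat' first
    | with_reducible refine pp_and ?_ ?_
    | with_reducible refine pp_or ?_ ?_
    | with_reducible refine pp_exists_lt ?_ ?_
    | with_reducible refine pp_forall_lt ?_ ?_
    | with_reducible refine pp_ne ?_ ?_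
    | with_reducible refine pp_imp ?_ ?_
    | with_reducible refine pp_eq ?_ ?_
    | with_reducible refine pr_tb ?_ ?_ ?_
    | with_reducible refine pr_tpw ?_ ?_ ?_
    | with_reducible refine pr_succ ?_
    | with_reducible exact Primrec.fst
    | with_reducible exact Primrec.snd
    | with_reducible refine pv_snd ?_
    | with_reducible refine pv_fst ?_

theorem two_aux {n : ℕ} {S : Type} [Semigroup S] (v : S ≃ Fin n) (t : List (List ℕ))
    (htb : ∀ i j : S, tb t (v i) (v j) = ((v (i * j) : Fin n) : ℕ)) :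
    TwoTab n t ↔ ∃ z : S, (∀ x : S, z * x = z ∧ x * z = z) ∧
      ∀ e : S, e ≠ z → e * e = e → (HGrp e).ncard = 2 := by
  have heq : ∀ a b : S, ((v a : ℕ) = (v b : ℕ)) ↔ a = b := fun a b => by
    rw [Fin.val_inj, v.injective.eq_iff]
  unfold TwoTab GT
  simp only [ball_iff v, bex_iff v]
  simp only [htb, heq, ne_eq]
  refine exists_congr fun z => and_congr_right fun hz => ?_
  refine forall_congr' fun e => forall_congr' fun hez => forall_congr' fun he => ?_
  constructor
  · rintro ⟨a, hae, ha, hall⟩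
    rw [Set.ncard_eq_two]
    refine ⟨e, a, fun h => hae h.symm, ?_⟩
    ext b
    simp only [Set.mem_insert_iff, Set.mem_singleton_iff]
    constructor
    · intro hb; exact hall b hb
    · rintro (rfl | rfl)
      · exact self_mem_HGrp he
      · exact ha
  · intro h
    obtain ⟨p, q, hpq, hH⟩ := Set.ncard_eq_two.1 h
    have hE := self_mem_HGrp he
    rw [hH] at hE
    have hin : ∀ b : S, (e * b = b ∧ b * e = b ∧
        ∃ y, e * y = y ∧ y * e = y ∧ b * y = e ∧ y * b = e) ↔ (b = p ∨ b = q) := by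
      intro b
      have : b ∈ HGrp e ↔ b ∈ ({p, q} : Set S) := by rw [hH]
      simpa [HGrp] using this
    rcases hE with hE | hE
    · subst hE
      exact ⟨q, fun h => hpq h.symm, (hin q).2 (Or.inr rfl), fun b hb => (hin b).1 hb⟩
    · rw [Set.mem_singleton_iff] at hE
      subst hE
      exact ⟨p, hpq, (hin p).2 (Or.inl rfl), fun b hb => ((hin b).1 hb).symm⟩

theorem tables {n : ℕ} (op : Fin n → Fin n → Fin n)
    (h : ∀ a b c : Fin n, op (op a b) c = op a (op b c)) :
    (PredTab n (List.ofFn (fun i : Fin n => List.ofFn (fun j : Fin n => ((op i j : Fin n) : ℕ)))) ∧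
     TwoTab n (List.ofFn (fun i : Fin n => List.ofFn (fun j : Fin n => ((op i j : Fin n) : ℕ))))) ↔
      (∃ z : Fin n, @IsC0Two (Fin n) { mul := op, mul_assoc := h } z) ∧
        @FinBased (Fin n) { mul := op, mul_assoc := h } := by
  letI : Semigroup (Fin n) := { mul := op, mul_assoc := h }
  have h1 := link n op h
  have h2 := @two_aux n (Fin n) { mul := op, mul_assoc := h } (Equiv.refl _)
    (List.ofFn (fun i : Fin n => List.ofFn (fun j : Fin n => ((op i j : Fin n) : ℕ))))
    (fun i j => tb_table op i j)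
  rw [h1, h2]
  constructor
  · rintro ⟨⟨z, hz, hc⟩, z', hz', hc'⟩
    have hzz : z' = z := by
      have a1 := (hz.1 z').1
      have a2 := (hz' z).2
      exact a2.symm.trans a1
    subst hzz
    exact ⟨⟨z', hz.1, hz.2.1, hz.2.2.1, hz.2.2.2.1, hc'⟩, (critS_iff z' hz).2 hc⟩
  · rintro ⟨⟨z, hz⟩, hfb⟩
    have h0 := isC0_of_two hz
    exact ⟨⟨z, h0, (critS_iff z h0).1 hfb⟩, z, hz.1, hz.2.2.2.2⟩

/-- the criterion over the two-element group -/
theorem crit_two {I L : Type} [Finite L] [Nonempty I]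
    (P : L → I → Option (ZMod 2)) (hP : Reg P) :
    FinBased (ARM (ZMod 2) I L P) ↔ (Rect P ∨ ∃ c ∈ Cyc4 P, c ≠ 0) := by
  rw [crit_iff P hP]
  unfold Crit
  refine or_congr Iff.rfl ?_
  constructor
  · intro h
    by_contra hc
    push Not at hc
    have := h 1 (fun c hc' => by rw [hc c hc', smul_zero]) 1
    revert this
    decide
  · rintro ⟨c, hc, hc0⟩ k hk a
    have h1 := hk c hc
    have hc1 : c = 1 := by
      revert hc0
      fin_cases c
      · intro h; exact absurd rfl h
      · intro _; rfl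
    rw [hc1] at h1
    have : (k : ZMod 2) = 0 := by simpa using h1
    rw [nsmul_eq_mul, this, zero_mul]

end Pool.Agent.H400.FbTwo
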